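import Pool.Agent.W5h18.IN.Defs

/-! (CL): `D` is one class of the subgroup generated by `D`. -/

namespace Pool.Agent.W5h18.IN

theorem CL_conj {G : Type} [Group G] {D : Set G} {a b : G} (ha : a ∈ D) (hb : b ∈ D)
    (ha2 : a * a = 1) (hb2 : b * b = 1) (hodd : Odd (orderOf (a * b))) :
    ∃ g ∈ Subgroup.closure D, g⁻¹ * a * g = b := by
  obtain ⟨k, hk⟩ := hodd
  have hab : a * b ∈ Subgroup.closure D :=
    (Subgroup.closure D).mul_mem (Subgroup.subset_closure ha) (Subgroup.subset_closure hb)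
  refine ⟨(a * b) ^ (k + 1), (Subgroup.closure D).pow_mem hab _, ?_⟩
  have hai : a⁻¹ = a := inv_eq_of_mul_eq_one_left ha2
  have hbi : b⁻¹ = b := inv_eq_of_mul_eq_one_left hb2
  -- `c⁻¹ = a * c * a`
  have h1 : ∀ m : ℕ, ((a * b) ^ m)⁻¹ * a = a * (a * b) ^ m := by
    intro m
    induction m with
    | zero => simp
    | succ m ih =>
      have e1 : ((a * b) ^ (m + 1))⁻¹ * a = (a * b)⁻¹ * (((a * b) ^ m)⁻¹ * a) := by
        rw [pow_succ, mul_inv_rev, mul_assoc]
      have e2 : a * (a * b) ^ (m + 1) = b * (a * b) ^ m := by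
        rw [pow_succ', ← mul_assoc, ← mul_assoc a a b, ha2, one_mul]
      rw [e1, ih, e2, mul_inv_rev, hai, hbi, ← mul_assoc, mul_assoc b a a, ha2, mul_one]
  rw [h1, mul_assoc, ← pow_add]
  have h2 : k + 1 + (k + 1) = orderOf (a * b) + 1 := by omega
  rw [h2, pow_add, pow_orderOf_eq_one, one_mul, pow_one, ← mul_assoc, ha2, one_mul]

theorem cl (h : S_CR) : S_CL := by
  intro G _ _ D T hD hT
  have hcr := (h G D T hD hT.1 hT.2.1 hT.2.2.1).1 hT
  have hsq : ∀ d ∈ D, d * d = 1 := by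
    intro d hd
    have := pow_orderOf_eq_one d
    rw [hD.1 d hd, pow_two] at this
    exact this
  -- the relation
  let P : G → G → Prop := fun a b => ∃ g ∈ Subgroup.closure D, g⁻¹ * a * g = b
  have hsymm : ∀ a b, P a b → P b a := by
    rintro a b ⟨g, hg, rfl⟩
    refine ⟨g⁻¹, (Subgroup.closure D).inv_mem hg, ?_⟩
    group
  have htrans : ∀ a b c, P a b → P b c → P a c := by
    rintro a b c ⟨g, hg, rfl⟩ ⟨g', hg', rfl⟩
    refine ⟨g * g', (Subgroup.closure D).mul_mem hg hg', ?_⟩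
    group
  have hP : ∀ a ∈ T, ∀ b ∈ D, b ∉ T → P a b := fun a ha b hb hbT =>
    CL_conj (hT.1 ha) hb (hsq a (hT.1 ha)) (hsq b hb) (hcr a ha b hb hbT)
  obtain ⟨t, ht⟩ := hT.2.1
  obtain ⟨d, hd, hdT⟩ : ∃ d ∈ D, d ∉ T := by
    by_contra hc
    push Not at hc
    exact hT.2.2.1 (Set.Subset.antisymm hT.1 hc)
  intro a ha b hb
  show P a b
  by_cases haT : a ∈ T
  · by_cases hbT : b ∈ T
    · exact htrans a d b (hP a haT d hd hdT) (hsymm b d (hP b hbT d hd hdT))
    · exact hP a haT b hb hbT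
  · by_cases hbT : b ∈ T
    · exact hsymm b a (hP b hbT a ha haT)
    · exact htrans a t b (hsymm t a (hP t ht a ha haT)) (hP t ht b hb hbT)

end Pool.Agent.W5h18.IN
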