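import Pool.Agent.W5h18.IN.Defs2

/-! (N2): normal `2`-subgroups. -/

namespace Pool.Agent.W5h18.IN

theorem n2 (h : S_CR) (h2 : S_CL) : S_N2 := by
  intro G _ _ Q _ hQ ⟨D, T, hD, hT⟩
  have hcr := (h G D T hD hT.1 hT.2.1 hT.2.2.1).1 hT
  have hsq : ∀ d ∈ D, d * d = 1 := by
    intro d hd
    have := pow_orderOf_eq_one d
    rw [hD.1 d hd, pow_two] at this
    exact this
  have hone : ∀ x ∈ Q, Odd (orderOf x) → x = 1 := by
    intro x hx hodd
    obtain ⟨k, hk⟩ := hQ ⟨x, hx⟩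
    have hk' : x ^ 2 ^ k = 1 := by
      have := congrArg Subtype.val hk
      simpa using this
    have hdvd : orderOf x ∣ 2 ^ k := orderOf_dvd_of_pow_eq_one hk'
    have hcop : Nat.Coprime (orderOf x) (2 ^ k) := Nat.Coprime.pow_right k hodd.coprime_two_right
    exact orderOf_eq_one_iff.1 (Nat.Coprime.eq_one_of_dvd hcop hdvd)
  have hne : ∀ a ∈ T, ∀ b ∈ D, b ∉ T → a * b ∉ Q := by
    intro a ha b hb hbT hab
    have h1 := hone _ hab (hcr a ha b hb hbT)
    have h3 : a = b := by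
      have := congrArg (· * b) h1
      simp only [one_mul] at this
      rw [mul_assoc, hsq b hb, mul_one] at this
      exact this
    exact hbT (h3 ▸ ha)
  obtain ⟨t, ht⟩ := hT.2.1
  obtain ⟨d, hd, hdT⟩ : ∃ d ∈ D, d ∉ T := by
    by_contra hc
    push Not at hc
    exact hT.2.2.1 (Set.Subset.antisymm hT.1 hc)
  have hDQ : ∀ x ∈ D, x ∉ Q := by
    intro x hx hxQ
    have hall : ∀ y ∈ D, y ∈ Q := by
      intro y hy
      obtain ⟨g, -, hg⟩ := h2 G D T hD hT x hx y hy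
      rw [← hg]
      have := (inferInstance : Q.Normal).conj_mem x hxQ g⁻¹
      rwa [inv_inv] at this
    exact hne t ht d hd hdT (Q.mul_mem (hall t (hT.1 ht)) (hall d hd))
  let π : G →* G ⧸ Q := QuotientGroup.mk' Q
  have hπ1 : ∀ x, π x = 1 ↔ x ∈ Q := fun x => QuotientGroup.eq_one_iff x
  have hnsi : NSI (π '' D) := by
    constructor
    · rintro _ ⟨x, hx, rfl⟩
      refine orderOf_eq_prime ?_ ?_
      · rw [pow_two, ← map_mul, hsq x hx, map_one]
      · rw [Ne, hπ1]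
        exact hDQ x hx
    · rintro _ ⟨x, hx, rfl⟩ g
      obtain ⟨g, rfl⟩ := QuotientGroup.mk'_surjective Q g
      exact ⟨g⁻¹ * x * g, hD.2 x hx g, by rw [map_mul, map_mul, map_inv]⟩
  refine ⟨π '' D, π '' T, hnsi, ?_⟩
  have hbT : π d ∉ π '' T := by
    rintro ⟨a, ha, hab⟩
    refine hne a ha d hd hdT ?_
    rw [← hπ1, map_mul, hab, ← map_mul, hsq d hd, map_one]
  refine (h (G ⧸ Q) (π '' D) (π '' T) hnsi (Set.image_mono hT.1) (hT.2.1.image _)
    (fun he => hbT (he ▸ ⟨d, hd, rfl⟩))).2 ?_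
  rintro _ ⟨a, ha, rfl⟩ _ ⟨b, hb, rfl⟩ hb'
  have hbT' : b ∉ T := fun hbb => hb' ⟨b, hbb, rfl⟩
  rw [← map_mul]
  exact (hcr a ha b hb hbT').of_dvd_nat (orderOf_map_dvd π (a * b))

end Pool.Agent.W5h18.IN
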