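import Pool.Agent.W5h18.IN.Defs2

/-!
# (NM) normal subgroups
-/

namespace Pool.Agent.W5h18.IN

namespace NM

variable {G : Type} [Group G] (N : Subgroup G) [N.Normal]

theorem odd_map (x : G) (hx : Odd (orderOf x)) : Odd (orderOf (x : G ⧸ N)) :=
  Odd.of_dvd_nat hx (orderOf_map_dvd (QuotientGroup.mk' N) x)

theorem two_map (d : G) (hd : orderOf d = 2) (hdN : d ∉ N) :
    orderOf (d : G ⧸ N) = 2 := by
  have : Fact (Nat.Prime 2) := ⟨Nat.prime_two⟩
  refine orderOf_eq_prime ?_ ?_
  · rw [← QuotientGroup.mk_pow]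
    have := pow_orderOf_eq_one d
    rw [hd] at this
    rw [this, QuotientGroup.mk_one]
  · intro h
    exact hdN ((QuotientGroup.eq_one_iff d).1 h)

end NM

open NM in
/-- Normal subgroups. -/
theorem nm (h : S_CR) (h2 : S_CL) : S_NM := by
  intro G _ _ N _ hG
  obtain ⟨D, T, hD, hA⟩ := hG
  have hTD : T ⊆ D := hA.1
  have hne : T.Nonempty := hA.2.1
  have hTn : T ≠ D := hA.2.2.1
  have hcr := (h G D T hD hTD hne hTn).1 hA
  have hcl := h2 G D T hD hA
  by_cases hin : ∃ d ∈ D, d ∈ N
  · -- `D ⊆ N`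
    left
    obtain ⟨d0, hd0, hd0N⟩ := hin
    have hDN : ∀ d ∈ D, d ∈ N := by
      intro d hd
      obtain ⟨g, _, hg⟩ := hcl d0 hd0 d hd
      rw [← hg]
      have := (inferInstance : N.Normal).conj_mem d0 hd0N g⁻¹
      rwa [inv_inv] at this
    have hNSI : NSI {x : N | (x : G) ∈ D} := by
      refine ⟨fun d hd => ?_, fun d hd g => ?_⟩
      · rw [← Subgroup.orderOf_coe]
        exact hD.1 _ hd
      · exact hD.2 _ hd (g : G)
    refine ⟨{x : N | (x : G) ∈ D}, {x : N | (x : G) ∈ T}, hNSI, (h N _ _ hNSI ?_ ?_ ?_).2 ?_⟩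
    · intro x hx
      exact hTD hx
    · obtain ⟨t, ht⟩ := hne
      exact ⟨⟨t, hDN t (hTD ht)⟩, ht⟩
    · intro heq
      apply hTn
      refine Set.Subset.antisymm hTD fun t ht => ?_
      have h3 : (⟨t, hDN t ht⟩ : N) ∈ {x : N | (x : G) ∈ T} := by
        rw [heq]
        exact ht
      exact h3
    · intro a ha b hb hbT
      rw [← Subgroup.orderOf_coe]
      exact hcr _ ha _ hb hbT
  · push Not at hin
    right
    set D' : Set (G ⧸ N) := {x | ∃ d ∈ D, (d : G ⧸ N) = x} with hD'
    set T' : Set (G ⧸ N) := {x | ∃ d ∈ T, (d : G ⧸ N) = x} with hT'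
    have hNSI : NSI D' := by
      refine ⟨?_, ?_⟩
      · rintro _ ⟨d, hd, rfl⟩
        exact two_map N d (hD.1 d hd) (hin d hd)
      · rintro _ ⟨d, hd, rfl⟩ g
        obtain ⟨g, rfl⟩ := QuotientGroup.mk_surjective g
        exact ⟨g⁻¹ * d * g, hD.2 d hd g, rfl⟩
    have hsub : T' ⊆ D' := by
      rintro _ ⟨d, hd, rfl⟩
      exact ⟨d, hTD hd, rfl⟩
    have hne' : T'.Nonempty := by
      obtain ⟨a, ha⟩ := hne
      exact ⟨_, a, ha, rfl⟩
    by_cases hcase : T' = D'
    · -- some `b ∈ D \ T` has the same image as some `a ∈ T`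
      obtain ⟨b, hbD, hbT⟩ : ∃ b ∈ D, b ∉ T := by
        by_contra hcon
        push Not at hcon
        exact hTn (Set.Subset.antisymm hTD hcon)
      have hb' : (b : G ⧸ N) ∈ T' := by
        rw [hcase]
        exact ⟨b, hbD, rfl⟩
      obtain ⟨a, haT, hab⟩ := hb'
      have haD := hTD haT
      have hall : ∀ c ∈ D, Odd (orderOf ((a : G ⧸ N) * (c : G ⧸ N))) := by
        intro c hc
        by_cases hcT : c ∈ T
        · have h1 := odd_map N _ (hcr c hcT b hbD hbT)
          rw [QuotientGroup.mk_mul, ← hab] at h1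
          have h3 : orderOf ((a : G ⧸ N) * (c : G ⧸ N)) = orderOf ((c : G ⧸ N) * (a : G ⧸ N)) := by
            have : (a : G ⧸ N) * (c : G ⧸ N)
                = (a : G ⧸ N) * ((c : G ⧸ N) * (a : G ⧸ N)) * (a : G ⧸ N)⁻¹ := by group
            rw [this]
            exact (MulAut.conj (a : G ⧸ N)).orderOf_eq ((c : G ⧸ N) * (a : G ⧸ N))
          rw [h3]
          exact h1
        · have h1 := odd_map N _ (hcr a haT c hc hcT)
          rwa [QuotientGroup.mk_mul] at h1
      by_cases hone : D' = {(a : G ⧸ N)}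
      · right
        refine ⟨a, hD.1 a haD, hin a haD, ?_, ?_⟩
        · intro hcen
          have hodd := hcr a haT b hbD hbT
          have hcomm : b * a = a * b := Subgroup.mem_center_iff.1 hcen b
          have h2 : (a * b) ^ 2 = 1 := by
            have ha2 := pow_orderOf_eq_one a
            have hb2 := pow_orderOf_eq_one b
            rw [hD.1 a haD] at ha2
            rw [hD.1 b hbD] at hb2
            rw [(show Commute a b from hcomm.symm).mul_pow, ha2, hb2, one_mul]
          have h1 : orderOf (a * b) = 1 := by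
            rcases (Nat.dvd_prime Nat.prime_two).1 (orderOf_dvd_of_pow_eq_one h2) with h5 | h5
            · exact h5
            · rw [h5] at hodd
              exact absurd hodd (by decide)
          have h6 := orderOf_eq_one_iff.1 h1
          have ha2 : a * a = 1 := by
            have := pow_orderOf_eq_one a
            rwa [hD.1 a haD, pow_two] at this
          have h7 : b = a := by
            rw [← mul_right_inj a, h6, ha2]
          rw [h7] at hbT
          exact hbT haT
        · rw [Subgroup.mem_center_iff]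
          intro g
          have h1 : g⁻¹⁻¹ * (a : G ⧸ N) * g⁻¹ ∈ D' := hNSI.2 _ ⟨a, haD, rfl⟩ g⁻¹
          rw [hone, Set.mem_singleton_iff, inv_inv] at h1
          calc g * (a : G ⧸ N) = (g * (a : G ⧸ N) * g⁻¹) * g := by group
            _ = (a : G ⧸ N) * g := by rw [h1]
      · left
        refine ⟨D', {(a : G ⧸ N)}, hNSI, ?_⟩
        refine (h (G ⧸ N) D' {(a : G ⧸ N)} hNSI ?_ ⟨_, rfl⟩ (Ne.symm hone)).2 ?_
        · rw [Set.singleton_subset_iff]
          exact ⟨a, haD, rfl⟩
        · rintro x hx _ ⟨c, hc, rfl⟩ _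
          rw [Set.mem_singleton_iff] at hx
          rw [hx]
          exact hall c hc
    · left
      refine ⟨D', T', hNSI, ?_⟩
      refine (h (G ⧸ N) D' T' hNSI hsub hne' hcase).2 ?_
      rintro _ ⟨a, ha, rfl⟩ _ ⟨b, hb, rfl⟩ hbT'
      have hbT : b ∉ T := fun hbT => hbT' ⟨b, hbT, rfl⟩
      have h1 := odd_map N _ (hcr a ha b hb hbT)
      rwa [QuotientGroup.mk_mul] at h1

end Pool.Agent.W5h18.IN
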