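import Pool.Agent.W5h18.IN.Defs

/-! (PR) of MP_39b43f_al: direct products. -/

set_option autoImplicit false

namespace Pool.Agent.W5h18.IN

namespace PR

theorem nsi_equiv {G K : Type} [Group G] [Group K] (e : G ≃* K) {D : Set G} (h : NSI D) :
    NSI (e.symm ⁻¹' D) := by
  refine ⟨fun d hd => ?_, fun d hd g => ?_⟩
  · have h1 := h.1 _ hd
    rwa [MulEquiv.orderOf_eq] at h1
  · show e.symm (g⁻¹ * d * g) ∈ D
    rw [map_mul, map_mul, map_inv]
    exact h.2 _ hd _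

theorem adm_equiv {G K : Type} [Group G] [Group K] (e : G ≃* K) {D T : Set G} (h : Adm D T) :
    Adm (e.symm ⁻¹' D) (e.symm ⁻¹' T) := by
  obtain ⟨h1, h2, h3, h4, h5⟩ := h
  refine ⟨fun x hx => h1 hx, ?_, ?_, ?_, ?_⟩
  · obtain ⟨t, ht⟩ := h2
    exact ⟨e t, by simpa using ht⟩
  · intro heq
    apply h3
    ext x
    have h6 : e x ∈ e.symm ⁻¹' T ↔ e x ∈ e.symm ⁻¹' D := by rw [heq]
    simpa using h6
  · intro a ha d hd hc
    refine h4 _ ha _ hd ?_
    rw [← map_mul, hc, map_mul]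
  · intro a ha b hb hab hne d hd hc
    refine h5 _ ha _ hb ?_ ?_ _ hd ?_
    · rw [← map_mul, hab, map_mul]
    · rw [← map_mul]
      intro h
      exact hne ((MulEquiv.map_eq_one_iff e.symm).1 h)
    · rw [← map_mul, ← map_mul, hc, map_mul, map_mul]

theorem has_equiv {G K : Type} [Group G] [Group K] (e : G ≃* K) (h : Has G) : Has K := by
  obtain ⟨D, T, hD, hA⟩ := h
  exact ⟨_, _, nsi_equiv e hD, adm_equiv e hA⟩

theorem has_left {G H : Type} [Group G] [Group H] (h : Has G) : Has (G × H) := by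
  obtain ⟨D, T, hD, h1, h2, h3, h4, h5⟩ := h
  refine ⟨{p | p.1 ∈ D ∧ p.2 = 1}, {p | p.1 ∈ T ∧ p.2 = 1}, ⟨?_, ?_⟩, ?_, ?_, ?_, ?_, ?_⟩
  · rintro ⟨x, y⟩ ⟨hx, hy⟩
    change y = 1 at hy
    subst hy
    have h6 : orderOf x = 2 := hD.1 x hx
    rw [Prod.orderOf_mk, h6]
    simp
  · rintro ⟨x, y⟩ ⟨hx, hy⟩ g
    change y = 1 at hy
    refine ⟨hD.2 x hx g.1, ?_⟩
    simp [hy]
  · rintro p ⟨hx, hy⟩
    exact ⟨h1 hx, hy⟩
  · obtain ⟨t, ht⟩ := h2
    exact ⟨(t, 1), ht, rfl⟩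
  · intro heq
    apply h3
    ext x
    have h6 := Set.ext_iff.1 heq (x, 1)
    simpa using h6
  · rintro a ⟨ha, ha'⟩ d ⟨hd, hd'⟩ hc
    exact ⟨h4 _ ha _ hd (congrArg Prod.fst hc), hd'⟩
  · rintro a ⟨ha, ha'⟩ b ⟨hb, hb'⟩ hab hne d ⟨hd, hd'⟩ hc
    refine ⟨h5 _ ha _ hb (congrArg Prod.fst hab) (fun h => hne (Prod.ext h ?_)) _ hd
      (congrArg Prod.fst hc), hd'⟩
    show a.2 * b.2 = 1
    rw [ha', hb', one_mul]

theorem odd_fst {G H : Type} [Group G] [Group H] {p : G × H} (h : Odd (orderOf p)) :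
    Odd (orderOf p.1) :=
  Odd.of_dvd_nat h (by
    rw [orderOf_dvd_iff_pow_eq_one, ← Prod.pow_fst, pow_orderOf_eq_one, Prod.fst_one])

theorem order_conj {G : Type} [Group G] (g x : G) : orderOf (g⁻¹ * x * g) = orderOf x := by
  have h := MulEquiv.orderOf_eq (MulAut.conj g⁻¹) x
  simpa [MulAut.conj_apply] using h

theorem key (h : S_CR) (h2 : S_CL) {G H : Type} [Group G] [Group H] [Finite G] [Finite H]
    {D T : Set (G × H)} (hD : NSI D) (hA : Adm D T) {x x' : G} {y y' : H} (hx : (x, y) ∈ D)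
    (hx' : (x', y') ∈ D) (hne : x ≠ x') : Has G := by
  have hcr := (h (G × H) D T hD hA.1 hA.2.1 hA.2.2.1).1 hA
  have hcl := h2 (G × H) D T hD hA
  obtain ⟨D₁, hD₁⟩ : ∃ D₁ : Set G, D₁ = {u | ∃ v, (u, v) ∈ D} := ⟨_, rfl⟩
  have hm : ∀ u, u ∈ D₁ ↔ ∃ v, (u, v) ∈ D := fun u => by rw [hD₁]; rfl
  have hD1sq : ∀ u ∈ D₁, orderOf u = 2 := by
    intro u hu
    obtain ⟨v, hv⟩ := (hm u).1 hu
    have h1 := hD.1 _ hv
    have h3 : u ^ 2 = 1 := by
      have h4 := pow_orderOf_eq_one (u, v)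
      rw [h1] at h4
      exact congrArg Prod.fst h4
    have hu1 : u ≠ 1 := by
      rintro rfl
      obtain ⟨g, -, hg⟩ := hcl _ hv _ hx
      obtain ⟨g', -, hg'⟩ := hcl _ hv _ hx'
      have e1 : g.1⁻¹ * 1 * g.1 = x := congrArg Prod.fst hg
      have e2 : g'.1⁻¹ * 1 * g'.1 = x' := congrArg Prod.fst hg'
      apply hne
      rw [← e1, ← e2]
      simp
    exact orderOf_eq_prime h3 hu1
  have hN : NSI D₁ := by
    refine ⟨hD1sq, fun u hu g => ?_⟩
    obtain ⟨v, hv⟩ := (hm u).1 hu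
    refine (hm _).2 ⟨v, ?_⟩
    have h3 := hD.2 _ hv (g, 1)
    simpa using h3
  by_cases hev : ∃ u ∈ D₁, ∃ u' ∈ D₁, ¬ Odd (orderOf (u * u'))
  · have hpart : ∀ w ∈ D₁, ∃ w' ∈ D₁, ¬ Odd (orderOf (w * w')) := by
      obtain ⟨u, hu, u', hu', ho⟩ := hev
      obtain ⟨v, hv⟩ := (hm u).1 hu
      intro w hw
      obtain ⟨z, hz⟩ := (hm w).1 hw
      obtain ⟨g, -, hg⟩ := hcl _ hv _ hz
      have hg1 : g.1⁻¹ * u * g.1 = w := congrArg Prod.fst hg
      refine ⟨g.1⁻¹ * u' * g.1, hN.2 _ hu' _, ?_⟩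
      have h3 : w * (g.1⁻¹ * u' * g.1) = g.1⁻¹ * (u * u') * g.1 := by
        rw [← hg1]
        group
      rw [h3, order_conj]
      exact ho
    have hprod : ∀ u v u' v', (u, v) ∈ D → (u', v') ∈ D → (u, v') ∈ D := by
      intro u v u' v' h1 h3
      obtain ⟨g, -, hg⟩ := hcl _ h1 _ h3
      have h4 := hD.2 _ h1 ((1 : G), g.2)
      have e0 : g.2⁻¹ * v * g.2 = v' := congrArg Prod.snd hg
      have e : ((1 : G), g.2)⁻¹ * (u, v) * ((1 : G), g.2) = (u, v') :=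
        Prod.ext (by simp) (by simpa using e0)
      rwa [e] at h4
    have hfib : ∀ u v v', (u, v) ∈ T → (u, v') ∈ D → (u, v') ∈ T := by
      intro u v v' h1 h3
      obtain ⟨w, hw, ho⟩ := hpart u ((hm u).2 ⟨v, hA.1 h1⟩)
      obtain ⟨z, hz⟩ := (hm w).1 hw
      have hwT : (w, z) ∈ T := by
        by_contra hn
        exact ho (odd_fst (hcr _ h1 _ hz hn))
      by_contra hn
      have h4 := odd_fst (hcr _ hwT _ h3 hn)
      have h5 : orderOf (w * u) = orderOf (u * w) := by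
        rw [← order_conj w (w * u)]
        congr 1
        group
      apply ho
      rw [← h5]
      exact h4
    refine ⟨D₁, {u | ∃ v, (u, v) ∈ T}, hN, ?_⟩
    rw [h G D₁ _ hN ?_ ?_ ?_]
    · rintro u ⟨v, hv⟩ u' hu' hn
      obtain ⟨v', hv'⟩ := (hm u').1 hu'
      have h3 : (u', v) ∈ D := hprod u' v' u v hv' (hA.1 hv)
      have h4 : (u', v) ∉ T := fun h => hn ⟨v, h⟩
      exact odd_fst (hcr _ hv _ h3 h4)
    · rintro u ⟨v, hv⟩
      exact (hm u).2 ⟨v, hA.1 hv⟩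
    · obtain ⟨⟨u, v⟩, huv⟩ := hA.2.1
      exact ⟨u, v, huv⟩
    · intro heq
      apply hA.2.2.1
      refine Set.Subset.antisymm hA.1 ?_
      rintro ⟨u, v⟩ huv
      have h3 : u ∈ {u | ∃ v, (u, v) ∈ T} := by
        rw [heq]
        exact (hm u).2 ⟨v, huv⟩
      obtain ⟨v', hv'⟩ := h3
      exact hfib u v' v hv' huv
  · push Not at hev
    refine ⟨D₁, {x}, hN, ?_⟩
    have hxD : x ∈ D₁ := (hm x).2 ⟨y, hx⟩
    rw [h G D₁ {x} hN ?_ ?_ ?_]
    · intro a ha b hb _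
      rw [Set.mem_singleton_iff.1 ha]
      exact hev x hxD b hb
    · exact Set.singleton_subset_iff.2 hxD
    · exact Set.singleton_nonempty x
    · intro heq
      have h3 : x' ∈ ({x} : Set G) := by
        rw [heq]
        exact (hm x').2 ⟨y', hx'⟩
      exact hne (Set.mem_singleton_iff.1 h3).symm

end PR

theorem pr (h : S_CR) (h2 : S_CL) : S_PR := by
  intro G H _ _ _ _
  constructor
  · rintro ⟨D, T, hD, hA⟩
    -- two different elements of `D`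
    obtain ⟨p, hp⟩ := hA.2.1
    obtain ⟨q, hqD, hqT⟩ : ∃ q ∈ D, q ∉ T := by
      by_contra hcon
      push Not at hcon
      exact hA.2.2.1 (Set.Subset.antisymm hA.1 hcon)
    have hpq : p ≠ q := fun e => hqT (e ▸ hp)
    by_cases h1 : p.1 = q.1
    · right
      have h3 : p.2 ≠ q.2 := fun e => hpq (Prod.ext h1 e)
      have hD' := PR.nsi_equiv (MulEquiv.prodComm (M := G) (N := H)) hD
      have hA' := PR.adm_equiv (MulEquiv.prodComm (M := G) (N := H)) hA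
      exact PR.key h h2 hD' hA' (x := p.2) (x' := q.2) (y := p.1) (y' := q.1)
        (hA.1 hp) hqD h3
    · left
      exact PR.key h h2 hD hA (x := p.1) (x' := q.1) (y := p.2) (y' := q.2)
        (hA.1 hp) hqD h1
  · rintro (hG | hH)
    · exact PR.has_left hG
    · exact PR.has_equiv MulEquiv.prodComm (PR.has_left (H := G) hH)

end Pool.Agent.W5h18.IN
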