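import Pool.Agent.W5h18.IN.Defs

/-!
# (QU) normal subgroups of odd order
-/

namespace Pool.Agent.W5h18.IN

namespace QU

variable {G : Type} [Group G] [Finite G] (N : Subgroup G) [N.Normal]

theorem odd_of_odd (hN : Odd (Nat.card N)) (x : G) (hx : Odd (orderOf (x : G ⧸ N))) :
    Odd (orderOf x) := by
  set k := orderOf (x : G ⧸ N) with hk
  have h1 : x ^ k ∈ N := by
    rw [← QuotientGroup.eq_one_iff, QuotientGroup.mk_pow, hk, pow_orderOf_eq_one]
  have h2 : (x ^ k) ^ Nat.card N = 1 := by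
    have h3 : (((⟨x ^ k, h1⟩ : N) ^ Nat.card N : N) : G) = 1 := by
      rw [pow_card_eq_one']
      rfl
    rw [SubmonoidClass.coe_pow] at h3
    exact h3
  rw [← pow_mul] at h2
  exact Odd.of_dvd_nat (hx.mul hN) (orderOf_dvd_of_pow_eq_one h2)

theorem odd_map (x : G) (hx : Odd (orderOf x)) : Odd (orderOf (x : G ⧸ N)) :=
  Odd.of_dvd_nat hx (orderOf_map_dvd (QuotientGroup.mk' N) x)

theorem two_map (hN : Odd (Nat.card N)) (d : G) (hd : orderOf d = 2) :
    orderOf (d : G ⧸ N) = 2 := by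
  haveI : Fact (Nat.Prime 2) := ⟨Nat.prime_two⟩
  refine orderOf_eq_prime ?_ ?_
  · rw [← QuotientGroup.mk_pow]
    have := pow_orderOf_eq_one d
    rw [hd] at this
    rw [this, QuotientGroup.mk_one]
  · intro h
    have h1 : d ∈ N := (QuotientGroup.eq_one_iff d).1 h
    have h2 := odd_of_odd N hN d (by rw [h, orderOf_one]; exact odd_one)
    rw [hd] at h2
    exact absurd h2 (by decide)

theorem lift (hN : Odd (Nat.card N)) (t : G ⧸ N) (ht : orderOf t = 2) :
    ∃ g : G, orderOf g = 2 ∧ (g : G ⧸ N) = t := by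
  haveI : Fact (Nat.Prime 2) := ⟨Nat.prime_two⟩
  obtain ⟨g, rfl⟩ := QuotientGroup.mk_surjective t
  have h2 : (g : G ⧸ N) ^ 2 = 1 := by
    have := pow_orderOf_eq_one (g : G ⧸ N)
    rwa [ht] at this
  have h1 : g ^ 2 ∈ N := by
    rw [← QuotientGroup.eq_one_iff, QuotientGroup.mk_pow, h2]
  have h3 : (g ^ 2) ^ Nat.card N = 1 := by
    have h3 : (((⟨g ^ 2, h1⟩ : N) ^ Nat.card N : N) : G) = 1 := by
      rw [pow_card_eq_one']
      rfl
    rw [SubmonoidClass.coe_pow] at h3
    exact h3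
  have h4 : ((g ^ Nat.card N : G) : G ⧸ N) = g := by
    obtain ⟨k, hk⟩ := hN
    rw [hk, QuotientGroup.mk_pow, pow_succ, pow_mul, h2, one_pow, one_mul]
  refine ⟨g ^ Nat.card N, orderOf_eq_prime ?_ ?_, h4⟩
  · rw [← pow_mul, mul_comm, pow_mul]
    exact h3
  · intro h
    rw [h, QuotientGroup.mk_one] at h4
    rw [← h4, orderOf_one] at ht
    exact absurd ht (by decide)

end QU

open QU in
/-- Normal subgroups of odd order. -/
theorem qu (h : S_CR) (_h2 : S_CL) : S_QU := by
  intro G _ _ N _ hN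
  constructor
  · rintro ⟨D, T, hD, hA⟩
    obtain ⟨hTD, hne, hTn⟩ := id (⟨hA.1, hA.2.1, hA.2.2.1⟩ : T ⊆ D ∧ T.Nonempty ∧ T ≠ D)
    have hcr := (h G D T hD hTD hne hTn).1 hA
    set D' : Set (G ⧸ N) := {x | ∃ d ∈ D, (d : G ⧸ N) = x} with hD'
    set T' : Set (G ⧸ N) := {x | ∃ d ∈ T, (d : G ⧸ N) = x} with hT'
    have hNSI : NSI D' := by
      refine ⟨?_, ?_⟩
      · rintro _ ⟨d, hd, rfl⟩
        exact two_map N hN d (hD.1 d hd)
      · rintro _ ⟨d, hd, rfl⟩ g
        obtain ⟨g, rfl⟩ := QuotientGroup.mk_surjective g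
        exact ⟨g⁻¹ * d * g, hD.2 d hd g, rfl⟩
    have hsub : T' ⊆ D' := by
      rintro _ ⟨d, hd, rfl⟩
      exact ⟨d, hTD hd, rfl⟩
    have hne' : T'.Nonempty := by
      obtain ⟨a, ha⟩ := hne
      exact ⟨_, a, ha, rfl⟩
    by_cases hcase : T' = D'
    · -- some `b ∈ D \ T` has the same image as some `a ∈ T`
      obtain ⟨b, hbD, hbT⟩ : ∃ b ∈ D, b ∉ T := by
        by_contra hcon
        push Not at hcon
        exact hTn (Set.Subset.antisymm hTD hcon)
      have hb' : (b : G ⧸ N) ∈ T' := by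
        rw [hcase]
        exact ⟨b, hbD, rfl⟩
      obtain ⟨a, haT, hab⟩ := hb'
      have haD := hTD haT
      have hall : ∀ c ∈ D, Odd (orderOf ((a : G ⧸ N) * (c : G ⧸ N))) := by
        intro c hc
        by_cases hcT : c ∈ T
        · have h1 := odd_map N _ (hcr c hcT b hbD hbT)
          rw [QuotientGroup.mk_mul, ← hab] at h1
          have h3 : orderOf ((a : G ⧸ N) * (c : G ⧸ N)) = orderOf ((c : G ⧸ N) * (a : G ⧸ N)) := by
            have h4 := (QuotientGroup.mk_mul N a c)
            have : (a : G ⧸ N) * (c : G ⧸ N)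
                = (a : G ⧸ N) * ((c : G ⧸ N) * (a : G ⧸ N)) * (a : G ⧸ N)⁻¹ := by group
            rw [this]
            exact (MulAut.conj (a : G ⧸ N)).orderOf_eq ((c : G ⧸ N) * (a : G ⧸ N))
          rw [h3]
          exact h1
        · have h1 := odd_map N _ (hcr a haT c hc hcT)
          rwa [QuotientGroup.mk_mul] at h1
      by_cases hone : D' = {(a : G ⧸ N)}
      · right
        refine ⟨a, hD.1 a haD, ?_, ?_⟩
        · intro hcen
          have hodd := hcr a haT b hbD hbT
          have hcomm : b * a = a * b := Subgroup.mem_center_iff.1 hcen b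
          have h2 : (a * b) ^ 2 = 1 := by
            have ha2 := pow_orderOf_eq_one a
            have hb2 := pow_orderOf_eq_one b
            rw [hD.1 a haD] at ha2
            rw [hD.1 b hbD] at hb2
            rw [(show Commute a b from hcomm.symm).mul_pow, ha2, hb2, one_mul]
          have h1 : orderOf (a * b) = 1 := by
            rcases (Nat.dvd_prime Nat.prime_two).1 (orderOf_dvd_of_pow_eq_one h2) with h5 | h5
            · exact h5
            · rw [h5] at hodd
              exact absurd hodd (by decide)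
          have h6 := orderOf_eq_one_iff.1 h1
          have ha2 : a * a = 1 := by
            have := pow_orderOf_eq_one a
            rwa [hD.1 a haD, pow_two] at this
          have h7 : b = a := by
            rw [← mul_right_inj a, h6, ha2]
          rw [h7] at hbT
          exact hbT haT
        · rw [Subgroup.mem_center_iff]
          intro g
          have h1 : g⁻¹⁻¹ * (a : G ⧸ N) * g⁻¹ ∈ D' := hNSI.2 _ ⟨a, haD, rfl⟩ g⁻¹
          rw [hone, Set.mem_singleton_iff, inv_inv] at h1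
          calc g * (a : G ⧸ N) = (g * (a : G ⧸ N) * g⁻¹) * g := by group
            _ = (a : G ⧸ N) * g := by rw [h1]
      · left
        refine ⟨D', {(a : G ⧸ N)}, hNSI, ?_⟩
        refine (h (G ⧸ N) D' {(a : G ⧸ N)} hNSI ?_ ⟨_, rfl⟩ (Ne.symm hone)).2 ?_
        · rw [Set.singleton_subset_iff]
          exact ⟨a, haD, rfl⟩
        · rintro x hx _ ⟨c, hc, rfl⟩ _
          rw [Set.mem_singleton_iff] at hx
          rw [hx]
          exact hall c hc
    · left
      refine ⟨D', T', hNSI, ?_⟩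
      refine (h (G ⧸ N) D' T' hNSI hsub hne' hcase).2 ?_
      rintro _ ⟨a, ha, rfl⟩ _ ⟨b, hb, rfl⟩ hbT'
      have hbT : b ∉ T := fun hbT => hbT' ⟨b, hbT, rfl⟩
      have h1 := odd_map N _ (hcr a ha b hb hbT)
      rwa [QuotientGroup.mk_mul] at h1
  · rintro (⟨D', T', hD', hA'⟩ | ⟨a, ha2, hac, hac'⟩)
    · obtain ⟨hTD, hne, hTn⟩ := id (⟨hA'.1, hA'.2.1, hA'.2.2.1⟩ : T' ⊆ D' ∧ T'.Nonempty ∧ T' ≠ D')
      have hcr := (h (G ⧸ N) D' T' hD' hTD hne hTn).1 hA'
      set D : Set G := {x | orderOf x = 2 ∧ (x : G ⧸ N) ∈ D'} with hD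
      set T : Set G := {x | orderOf x = 2 ∧ (x : G ⧸ N) ∈ T'} with hT
      have hNSI : NSI D := by
        refine ⟨fun d hd => hd.1, fun d hd g => ⟨?_, ?_⟩⟩
        · have h1 := (MulAut.conj g⁻¹).orderOf_eq d
          rw [← hd.1, ← h1]
          simp
        · exact hD'.2 _ hd.2 (g : G ⧸ N)
      refine ⟨D, T, hNSI, (h G D T hNSI (fun x hx => ⟨hx.1, hTD hx.2⟩) ?_ ?_).2 ?_⟩
      · obtain ⟨t, ht⟩ := hne
        obtain ⟨g, hg, hgt⟩ := lift N hN t (hD'.1 t (hTD ht))
        exact ⟨g, hg, by rw [hgt]; exact ht⟩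
      · intro heq
        apply hTn
        refine Set.Subset.antisymm hTD fun t ht => ?_
        obtain ⟨g, hg, hgt⟩ := lift N hN t (hD'.1 t ht)
        have : g ∈ T := by
          rw [heq]
          exact ⟨hg, by rw [hgt]; exact ht⟩
        rw [← hgt]
        exact this.2
      · intro a ha b hb hbT
        refine odd_of_odd N hN _ ?_
        rw [QuotientGroup.mk_mul]
        exact hcr _ ha.2 _ hb.2 fun h3 => hbT ⟨hb.1, h3⟩
    · set D : Set G := {x | ∃ g : G, x = g⁻¹ * a * g} with hD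
      have haD : a ∈ D := ⟨1, by group⟩
      have hNSI : NSI D := by
        refine ⟨?_, ?_⟩
        · rintro _ ⟨g, rfl⟩
          have h1 := (MulAut.conj g⁻¹).orderOf_eq a
          rw [← ha2, ← h1]
          simp
        · rintro _ ⟨g, rfl⟩ k
          exact ⟨g * k, by group⟩
      have hπ : ∀ x ∈ D, (x : G ⧸ N) = (a : G ⧸ N) := by
        rintro _ ⟨g, rfl⟩
        rw [QuotientGroup.mk_mul, QuotientGroup.mk_mul, QuotientGroup.mk_inv]
        have h1 := Subgroup.mem_center_iff.1 hac' (g : G ⧸ N)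
        rw [mul_assoc, ← h1]
        group
      refine ⟨D, {a}, hNSI, (h G D {a} hNSI ?_ ⟨a, rfl⟩ ?_).2 ?_⟩
      · rw [Set.singleton_subset_iff]; exact haD
      · intro heq
        apply hac
        rw [Subgroup.mem_center_iff]
        intro g
        have h1 : g⁻¹⁻¹ * a * g⁻¹ ∈ D := hNSI.2 _ haD g⁻¹
        rw [← heq, Set.mem_singleton_iff, inv_inv] at h1
        calc g * a = (g * a * g⁻¹) * g := by group
          _ = a * g := by rw [h1]
      · intro x hx b hb _
        rw [Set.mem_singleton_iff] at hx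
        refine odd_of_odd N hN _ ?_
        rw [QuotientGroup.mk_mul, hx, hπ b hb]
        have h1 := two_map N hN a ha2
        have h3 := pow_orderOf_eq_one (a : G ⧸ N)
        rw [h1, pow_two] at h3
        rw [h3, orderOf_one]
        exact odd_one

end Pool.Agent.W5h18.IN
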