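import Pool.Agent.W5h18.IN.Defs

set_option autoImplicit false

namespace Pool.Agent.W5h18.IN

theorem tr (h : S_CR) : ∀ (G : Type) [Group G] [Finite G] (N : Subgroup G) [N.Normal],
    (∀ g : G, Odd (orderOf (g : G ⧸ N)) → g ∉ N → Odd (orderOf g)) →
    (∀ x : G ⧸ N, orderOf x = 2 → ∃ a : G, orderOf a = 2 ∧ (a : G ⧸ N) = x) →
    Has (G ⧸ N) → Has G := by
  intro G _ _ N _ hodd hlift ⟨D', T', hD', hT'⟩
  have hcr := (h (G ⧸ N) D' T' hD' hT'.1 hT'.2.1 hT'.2.2.1).mp hT'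
  let D : Set G := {a | orderOf a = 2 ∧ (a : G ⧸ N) ∈ D'}
  let T : Set G := {a | orderOf a = 2 ∧ (a : G ⧸ N) ∈ T'}
  have hD : NSI D := by
    refine ⟨fun d hd => hd.1, fun d hd g => ⟨?_, ?_⟩⟩
    · have h1 : orderOf (g⁻¹ * d * g) = orderOf d := by
        have := orderOf_injective (MulAut.conj g⁻¹).toMonoidHom (MulAut.conj g⁻¹).injective d
        simpa using this
      rw [h1]
      exact hd.1
    · have := hD'.2 _ hd.2 (g : G ⧸ N)
      simpa using this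
  have hTD : T ⊆ D := fun a ha => ⟨ha.1, hT'.1 ha.2⟩
  have hTne : T.Nonempty := by
    obtain ⟨t, ht⟩ := hT'.2.1
    obtain ⟨a, ha, hat⟩ := hlift t (hD'.1 t (hT'.1 ht))
    exact ⟨a, ha, hat ▸ ht⟩
  have hTneD : T ≠ D := by
    intro heq
    apply hT'.2.2.1
    apply Set.Subset.antisymm hT'.1
    intro x hx
    obtain ⟨a, ha, hax⟩ := hlift x (hD'.1 x hx)
    have h1 : a ∈ T := by
      rw [heq]
      exact ⟨ha, hax ▸ hx⟩
    rw [← hax]
    exact h1.2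
  refine ⟨D, T, hD, (h G D T hD hTD hTne hTneD).mpr fun a ha b hb hbT => ?_⟩
  have hbT' : (b : G ⧸ N) ∉ T' := fun h1 => hbT ⟨hb.1, h1⟩
  have h1 := hcr (a : G ⧸ N) ha.2 (b : G ⧸ N) hb.2 hbT'
  apply hodd
  · rw [QuotientGroup.mk_mul]
    exact h1
  · intro hN
    have h2 : (a : G ⧸ N) * (b : G ⧸ N) = 1 := by
      rw [← QuotientGroup.mk_mul]
      exact (QuotientGroup.eq_one_iff _).mpr hN
    have h3 : (a : G ⧸ N) * (a : G ⧸ N) = 1 := by
      have h4 := pow_orderOf_eq_one a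
      rw [ha.1, pow_two] at h4
      rw [← QuotientGroup.mk_mul, h4, QuotientGroup.mk_one]
    have h5 : (b : G ⧸ N) = (a : G ⧸ N) := mul_left_cancel (h2.trans h3.symm)
    exact hbT' (h5 ▸ ha.2)

end Pool.Agent.W5h18.IN
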