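import Pool.Agent.W5h18.IN.Defs3

set_option autoImplicit false

/-!
# (SO2) admissible pairs and embedded subgroups
-/

namespace Pool.Agent.W5h18.IN

namespace SO2H

variable {G : Type} [Group G]

theorem cj_mul (g h : G) (S : Set G) : cj (g * h) S = cj h (cj g S) := by
  ext x
  show g * h * x * (g * h)⁻¹ ∈ S ↔ g * (h * x * h⁻¹) * g⁻¹ ∈ S
  rw [show g * h * x * (g * h)⁻¹ = g * (h * x * h⁻¹) * g⁻¹ by group]

theorem cj_one (S : Set G) : cj 1 S = S := by
  ext x
  show 1 * x * 1⁻¹ ∈ S ↔ x ∈ S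
  simp

/-- the normaliser of a set -/
def Nz (S : Set G) : Subgroup G where
  carrier := {g | cj g S = S}
  one_mem' := cj_one S
  mul_mem' := by
    intro g h hg hh
    show cj (g * h) S = S
    rw [cj_mul, show cj g S = S from hg, show cj h S = S from hh]
  inv_mem' := by
    intro g hg
    show cj g⁻¹ S = S
    have h1 : cj (g * g⁻¹) S = cj g⁻¹ (cj g S) := cj_mul _ _ _
    rw [mul_inv_cancel, cj_one, show cj g S = S from hg] at h1
    exact h1.symm

theorem mem_Nz (S : Set G) (g : G) : g ∈ Nz S ↔ cj g S = S := Iff.rfl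

theorem index_Nz (S : Set G) : (Nz S).index = {S' | ∃ g : G, S' = cj g S}.ncard := by
  have hiff : ∀ g h : G, cj g⁻¹ S = cj h⁻¹ S ↔ g⁻¹ * h ∈ Nz S := by
    intro g h
    rw [mem_Nz, cj_mul]
    constructor
    · intro h1
      rw [h1, ← cj_mul, inv_mul_cancel, cj_one]
    · intro h1
      have : cj (h * h⁻¹) (cj g⁻¹ S) = cj h⁻¹ (cj h (cj g⁻¹ S)) := cj_mul _ _ _
      rw [h1, mul_inv_cancel, cj_one] at this
      exact this
  let f : G ⧸ Nz S → Set G := Quotient.lift (fun g : G => cj g⁻¹ S) (by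
    intro g h hgh
    have : g⁻¹ * h ∈ Nz S := QuotientGroup.leftRel_apply.mp hgh
    exact (hiff g h).mpr this)
  have hf : Function.Injective f := by
    intro q1 q2
    induction q1 using QuotientGroup.induction_on with
    | _ g =>
    induction q2 using QuotientGroup.induction_on with
    | _ h =>
    intro hgh
    have : cj g⁻¹ S = cj h⁻¹ S := hgh
    exact QuotientGroup.eq.mpr ((hiff g h).mp this)
  have hr : Set.range f = {S' | ∃ g : G, S' = cj g S} := by
    ext S'
    constructor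
    · rintro ⟨q, rfl⟩
      induction q using QuotientGroup.induction_on with
      | _ g => exact ⟨g⁻¹, rfl⟩
    · rintro ⟨g, rfl⟩
      refine ⟨((g⁻¹ : G) : G ⧸ Nz S), ?_⟩
      show cj (g⁻¹)⁻¹ S = cj g S
      rw [inv_inv]
  rw [← hr, ← Nat.card_coe_set_eq]
  exact Nat.card_congr (Equiv.ofInjective f hf)

end SO2H

open SO2H in
/-- **(SO2)** -/
theorem so2 (hCR : S_CR) (_h2 : S_CL) (hST : S_ST) : S_SO2 := by
  intro G _ _
  constructor
  · rintro ⟨D, T, hD, hT⟩
    obtain ⟨T₀, _, hA, hblock, _, hnorm, hodd, _⟩ := hST G D T hD hT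
    have hDH : ∀ d ∈ D, (d ∈ Nz T₀ ↔ d ∈ T₀) := by
      intro d hd
      have := hnorm d hd 1
      rwa [cj_one] at this
    obtain ⟨hsub, ⟨a, ha⟩, hne, h4, h5⟩ := hA
    have haD : a ∈ D := hsub ha
    have hA' : Adm D T₀ := ⟨hsub, ⟨a, ha⟩, hne, h4, h5⟩
    have hcr := (hCR G D T₀ hD hsub ⟨a, ha⟩ hne).mp hA'
    refine ⟨a, Nz T₀, hD.1 a haD, ?_, ?_, (hDH a haD).mpr ha, ?_, ?_⟩
    · intro htop
      apply hne
      apply Set.Subset.antisymm hsub
      intro d hd
      apply (hDH d hd).mp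
      rw [htop]
      exact Subgroup.mem_top d
    · rw [index_Nz]
      exact hodd
    · intro g hg
      have h1 : g * a * g⁻¹ ∈ D := by
        have := hD.2 a haD g⁻¹
        rwa [inv_inv] at this
      have h2 : g * a * g⁻¹ ∈ T₀ := (hDH _ h1).mp hg
      rcases hblock g with h | h
      · exact h
      · exact absurd ha (Set.disjoint_left.mp h (show a ∈ cj g T₀ from h2))
    · intro x y hx hy
      refine hcr _ ((hDH _ (hD.2 a haD x)).mp hx) _ (hD.2 a haD y) fun h => ?_
      exact hy ((hDH _ (hD.2 a haD y)).mpr h)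
  · rintro ⟨a, H, ha, htop, _, haH, hfix, hodd⟩
    let D : Set G := {d | ∃ x : G, d = x⁻¹ * a * x}
    let T : Set G := {d | (∃ x : G, d = x⁻¹ * a * x) ∧ d ∈ H}
    have haD : a ∈ D := ⟨1, by simp⟩
    have hD : NSI D := by
      constructor
      · rintro d ⟨x, rfl⟩
        have h1 : x⁻¹ * a * x = MulAut.conj x⁻¹ a := by simp
        rw [h1]
        exact (orderOf_injective (MulAut.conj x⁻¹).toMonoidHom (MulAut.conj x⁻¹).injective a).trans
          ha
      · rintro d ⟨x, rfl⟩ g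
        exact ⟨x * g, by group⟩
    refine ⟨D, T, hD, (hCR G D T hD (fun d hd => hd.1) ⟨a, haD, haH⟩ ?_).mpr ?_⟩
    · intro h
      apply htop
      rw [eq_top_iff]
      intro g _
      apply hfix
      have : g * a * g⁻¹ ∈ T := by
        rw [h]
        exact ⟨g⁻¹, by simp⟩
      exact this.2
    · rintro d ⟨⟨x, rfl⟩, hx⟩ b ⟨y, rfl⟩ hy
      exact hodd x y hx fun h => hy ⟨⟨y, rfl⟩, h⟩

end Pool.Agent.W5h18.IN
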