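import Pool.Agent.W5h18.IN.Defs

/-!
# Finite groups with a centralizer-closed set of involutions (MP_39b43f_al): the partition
-/

namespace Pool.Agent.W5h18.IN

open Set

section

variable {G : Type} [Group G]

theorem st_cj_cj (g h : G) (S : Set G) : cj h (cj g S) = cj (g * h) S := by
  ext x
  show g * (h * x * h⁻¹) * g⁻¹ ∈ S ↔ g * h * x * (g * h)⁻¹ ∈ S
  have : g * (h * x * h⁻¹) * g⁻¹ = g * h * x * (g * h)⁻¹ := by group
  rw [this]

theorem st_cj_one (S : Set G) : cj 1 S = S := by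
  ext x
  show 1 * x * 1⁻¹ ∈ S ↔ x ∈ S
  simp

theorem st_cj_D {D : Set G} (hD : NSI D) (g : G) : cj g D = D := by
  ext x
  show g * x * g⁻¹ ∈ D ↔ x ∈ D
  constructor
  · intro h
    have := hD.2 _ h g
    have e : g⁻¹ * (g * x * g⁻¹) * g = x := by group
    rwa [e] at this
  · intro h
    have := hD.2 _ h g⁻¹
    rwa [inv_inv] at this

theorem st_ps_cj {D S : Set G} (hD : NSI D)
    (h : ∀ a ∈ S, ∀ b ∈ D, b ∉ S → Odd (orderOf (a * b))) (g : G) :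
    ∀ a ∈ cj g S, ∀ b ∈ D, b ∉ cj g S → Odd (orderOf (a * b)) := by
  intro a ha b hb hbS
  have hb' : g * b * g⁻¹ ∈ D := by
    have := st_cj_D hD g
    rw [← this] at hb
    exact hb
  have h1 := h (g * a * g⁻¹) ha (g * b * g⁻¹) hb' hbS
  have e : g * a * g⁻¹ * (g * b * g⁻¹) = MulAut.conj g (a * b) := by
    rw [MulAut.conj_apply]
    group
  rw [e, MulEquiv.orderOf_eq] at h1
  exact h1

theorem st_conj {b d : G} (hb : b * b = 1) (hd : d * d = 1) {k : ℕ}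
    (hk : orderOf (b * d) = 2 * k + 1) :
    (b * d) ^ (k + 1) * d * ((b * d) ^ (k + 1))⁻¹ = b := by
  have hbi : b⁻¹ = b := inv_eq_of_mul_eq_one_left hb
  have hdi : d⁻¹ = d := inv_eq_of_mul_eq_one_left hd
  have hs : SemiconjBy b (b * d) (b * d)⁻¹ := by
    show b * (b * d) = (b * d)⁻¹ * b
    rw [mul_inv_rev, ← mul_assoc, hb, one_mul, mul_assoc, inv_mul_cancel, mul_one, hdi]
  have h1 : b * (b * d) ^ (k + 1) = ((b * d)⁻¹) ^ (k + 1) * b := hs.pow_right (k + 1)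
  have h2 : ((b * d)⁻¹) ^ (k + 1) = (b * d) ^ k := by
    rw [inv_pow]
    refine inv_eq_of_mul_eq_one_left ?_
    rw [← pow_add, show k + (k + 1) = 2 * k + 1 by ring, ← hk, pow_orderOf_eq_one]
  rw [mul_inv_eq_iff_eq_mul, h1, h2, pow_succ, mul_assoc, mul_assoc, hd, mul_one]

end

/-- (ST) -/
theorem st (h : S_CR) (h2 : S_CL) : S_ST := by
  classical
  intro G _ _ D T hD hT
  -- minimal
  have hex : ∃ n, ∃ S ⊆ T, Adm D S ∧ S.ncard = n := ⟨_, T, subset_rfl, hT, rfl⟩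
  obtain ⟨T₀, hT₀T, hA, hn⟩ := Nat.find_spec hex
  have hmin : ∀ S ⊆ T₀, Adm D S → S = T₀ := by
    intro S hS hSA
    have h3 := Nat.find_min' hex ⟨S, hS.trans hT₀T, hSA, rfl⟩
    rw [← hn] at h3
    exact Set.eq_of_subset_of_ncard_le hS h3 (Set.toFinite _)
  have hcr : ∀ S, S ⊆ D → S.Nonempty → S ≠ D →
      (Adm D S ↔ ∀ a ∈ S, ∀ b ∈ D, b ∉ S → Odd (orderOf (a * b))) := fun S => h G D S hD
  have hP : ∀ a ∈ T₀, ∀ b ∈ D, b ∉ T₀ → Odd (orderOf (a * b)) :=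
    (hcr T₀ hA.1 hA.2.1 hA.2.2.1).mp hA
  have hsub : T₀ ⊆ D := hA.1
  have hint : ∀ S : Set G, (∀ a ∈ S, ∀ b ∈ D, b ∉ S → Odd (orderOf (a * b))) →
      (S ∩ T₀).Nonempty → T₀ ⊆ S := by
    intro S hS hne
    have h4 : Adm D (S ∩ T₀) := (hcr _ (inter_subset_right.trans hsub) hne (by
      intro he
      apply hA.2.2.1
      refine subset_antisymm hsub ?_
      rw [← he]
      exact inter_subset_right)).mpr (by
        intro a ha b hb hbn
        by_cases hb1 : b ∈ S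
        · exact hP a ha.2 b hb (fun h5 => hbn ⟨hb1, h5⟩)
        · exact hS a ha.1 b hb hb1)
    have h5 := hmin _ inter_subset_right h4
    rw [← h5]
    exact inter_subset_left
  have hdis : ∀ g, (cj g T₀ ∩ T₀).Nonempty → cj g T₀ = T₀ := by
    rintro g ⟨x, hx1, hx2⟩
    apply subset_antisymm
    · have h6 : T₀ ⊆ cj g⁻¹ T₀ := hint _ (st_ps_cj hD hP g⁻¹) ⟨g * x * g⁻¹, by
        show g⁻¹ * (g * x * g⁻¹) * g⁻¹⁻¹ ∈ T₀
        have e : g⁻¹ * (g * x * g⁻¹) * g⁻¹⁻¹ = x := by group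
        rwa [e], hx1⟩
      intro y hy
      have h7 : g⁻¹ * (g * y * g⁻¹) * g⁻¹⁻¹ ∈ T₀ := h6 hy
      have e : g⁻¹ * (g * y * g⁻¹) * g⁻¹⁻¹ = y := by group
      rwa [e] at h7
    · exact hint _ (st_ps_cj hD hP g) ⟨x, hx1, hx2⟩
  have hdis2 : ∀ g k, (cj g T₀ ∩ cj k T₀).Nonempty → cj g T₀ = cj k T₀ := by
    rintro g k ⟨x, hx1, hx2⟩
    have h7 := hdis (g * k⁻¹) ⟨k * x * k⁻¹, by
      show g * k⁻¹ * (k * x * k⁻¹) * (g * k⁻¹)⁻¹ ∈ T₀
      have e : g * k⁻¹ * (k * x * k⁻¹) * (g * k⁻¹)⁻¹ = g * x * g⁻¹ := by group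
      rw [e]
      exact hx1, hx2⟩
    have h8 := congrArg (cj k) h7
    rw [st_cj_cj, inv_mul_cancel_right] at h8
    exact h8
  obtain ⟨a₀, ha₀⟩ := hA.2.1
  have hcov : ∀ d ∈ D, ∃ g, d ∈ cj g T₀ := by
    intro d hd
    obtain ⟨g, -, hg⟩ := h2 G D T₀ hD hA a₀ (hsub ha₀) d hd
    refine ⟨g, ?_⟩
    show g * d * g⁻¹ ∈ T₀
    have e : g * (g⁻¹ * a₀ * g) * g⁻¹ = a₀ := by group
    rw [← hg, e]
    exact ha₀
  have hback : ∀ d, ∀ g, d ∈ cj g T₀ → cj d (cj g T₀) = cj g T₀ := by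
    intro d g hd
    rw [st_cj_cj]
    refine hdis2 _ _ ⟨d, ?_, hd⟩
    show g * d * d * (g * d)⁻¹ ∈ T₀
    have e : g * d * d * (g * d)⁻¹ = g * d * g⁻¹ := by group
    rw [e]
    exact hd
  have hfix : ∀ d ∈ D, ∀ g, cj d (cj g T₀) = cj g T₀ ↔ d ∈ cj g T₀ := by
    intro d hd g
    refine ⟨fun hS => ?_, hback d g⟩
    by_contra hdn
    have hb : g⁻¹ * a₀ * g ∈ cj g T₀ := by
      show g * (g⁻¹ * a₀ * g) * g⁻¹ ∈ T₀
      have e : g * (g⁻¹ * a₀ * g) * g⁻¹ = a₀ := by group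
      rwa [e]
    have hbD : g⁻¹ * a₀ * g ∈ D := hD.2 _ (hsub ha₀) g
    generalize g⁻¹ * a₀ * g = b at hb hbD
    obtain ⟨k, hk⟩ := st_ps_cj hD hP g b hb d hd hdn
    have hb2 : b * b = 1 := by
      have := pow_orderOf_eq_one b
      rwa [hD.1 b hbD, sq] at this
    have hd2 : d * d = 1 := by
      have := pow_orderOf_eq_one d
      rwa [hD.1 d hd, sq] at this
    have hbS := hback b g hb
    have hr : cj (b * d) (cj g T₀) = cj g T₀ := by
      rw [← st_cj_cj, hbS, hS]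
    have hrn : ∀ n : ℕ, cj ((b * d) ^ n) (cj g T₀) = cj g T₀ := by
      intro n
      induction n with
      | zero => rw [pow_zero, st_cj_one]
      | succ n ih => rw [pow_succ, ← st_cj_cj, ih, hr]
    apply hdn
    rw [← hrn (k + 1)]
    show (b * d) ^ (k + 1) * d * ((b * d) ^ (k + 1))⁻¹ ∈ cj g T₀
    rw [st_conj hb2 hd2 hk]
    exact hb
  have hΩfin : {S | ∃ g : G, S = cj g T₀}.Finite := Set.toFinite _
  have hodd : Odd {S | ∃ g : G, S = cj g T₀}.ncard := by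
    have : Fintype {S | ∃ g : G, S = cj g T₀} := hΩfin.fintype
    let f : Function.End {S | ∃ g : G, S = cj g T₀} := fun S => ⟨cj a₀ S.1, by
      obtain ⟨g, hg⟩ := S.2
      exact ⟨g * a₀, by rw [hg, st_cj_cj]⟩⟩
    have ha2 : a₀ * a₀ = 1 := by
      have := pow_orderOf_eq_one a₀
      rwa [hD.1 a₀ (hsub ha₀), sq] at this
    have hf : f ^ 2 ^ 1 = 1 := by
      funext S
      apply Subtype.ext
      show cj a₀ (cj a₀ S.1) = S.1
      rw [st_cj_cj, ha2, st_cj_one]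
    have hmod := Equiv.Perm.card_fixedPoints_modEq (p := 2) (n := 1) (f := f) hf
    have h1 : Fintype.card f.fixedPoints = 1 := by
      rw [Fintype.card_eq_one_iff]
      obtain ⟨g, hg⟩ := hcov a₀ (hsub ha₀)
      refine ⟨⟨⟨cj g T₀, g, rfl⟩, Subtype.ext (hback a₀ g hg)⟩, ?_⟩
      rintro ⟨⟨S, k, rfl⟩, hS⟩
      apply Subtype.ext
      apply Subtype.ext
      have h5 : cj a₀ (cj k T₀) = cj k T₀ := congrArg Subtype.val hS
      have h6 := (hfix a₀ (hsub ha₀) k).mp h5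
      exact hdis2 k g ⟨a₀, h6, hg⟩
    rw [h1] at hmod
    rw [Set.ncard_eq_toFinset_card', Set.toFinset_card, Nat.odd_iff]
    exact hmod
  refine ⟨T₀, hT₀T, hA, fun g => ?_, hcov, hfix, hodd, ?_⟩
  · by_cases hne : (cj g T₀ ∩ T₀).Nonempty
    · exact Or.inl (hdis g hne)
    · exact Or.inr (Set.disjoint_iff_inter_eq_empty.mpr (Set.not_nonempty_iff_eq_empty.mp hne))
  · have h1 : {S | ∃ g : G, S = cj g T₀}.ncard ≠ 1 := by
      intro h1
      obtain ⟨S, hS⟩ := Set.ncard_eq_one.mp h1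
      have h3 : ∀ g : G, cj g T₀ = S := fun g => by
        have : cj g T₀ ∈ {S | ∃ g : G, S = cj g T₀} := ⟨g, rfl⟩
        rw [hS] at this
        exact this
      apply hA.2.2.1
      refine subset_antisymm hsub fun d hd => ?_
      obtain ⟨g, hg⟩ := hcov d hd
      rw [h3 g, ← h3 1, st_cj_one] at hg
      exact hg
    obtain ⟨k, hk⟩ := hodd
    omega

end Pool.Agent.W5h18.IN
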