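import Pool.Agent.W5h18.IN.Defs2

set_option autoImplicit false

namespace Pool.Agent.W5h18.IN

theorem l1 (h : S_QU) (h2 : S_NO) : S_L1 := by
  intro G _ _ N M _ _ hNM hN hM hidx
  rw [h G N hN]
  have hno : ¬ Has (G ⧸ N) := by
    apply h2 (G ⧸ N)
    -- involutions of the quotient come from M
    have hmem : ∀ g : G, orderOf (g : G ⧸ N) = 2 → g ∈ M := by
      intro g hg
      have h3 : (g : G ⧸ N) ^ 2 = 1 := by
        rw [← hg]
        exact pow_orderOf_eq_one _
      rw [← QuotientGroup.mk_pow, QuotientGroup.eq_one_iff] at h3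
      have h4 : (g : G ⧸ M) ^ 2 = 1 := by
        rw [← QuotientGroup.mk_pow, QuotientGroup.eq_one_iff]
        exact hNM h3
      have h5 : orderOf (g : G ⧸ M) ∣ 2 := orderOf_dvd_of_pow_eq_one h4
      have h6 : orderOf (g : G ⧸ M) ∣ M.index := by
        rw [Subgroup.index_eq_card]
        exact orderOf_dvd_natCard _
      have h7 : orderOf (g : G ⧸ M) ∣ 1 := by
        have hco : Nat.Coprime 2 M.index := (Nat.coprime_two_left).mpr hidx
        rw [← hco.gcd_eq_one]
        exact Nat.dvd_gcd h5 h6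
      rw [← QuotientGroup.eq_one_iff, ← orderOf_eq_one_iff]
      exact Nat.dvd_one.mp h7
    intro a b ha hb hab
    obtain ⟨g, rfl⟩ := QuotientGroup.mk_surjective a
    obtain ⟨g', rfl⟩ := QuotientGroup.mk_surjective b
    have hgM : g * g' ∈ M := M.mul_mem (hmem g ha) (hmem g' hb)
    obtain ⟨k, hk⟩ := hM _ hgM
    have h3 : ((g : G ⧸ N) * (g' : G ⧸ N)) ^ 2 ^ k = 1 := by
      rw [← QuotientGroup.mk_mul, ← QuotientGroup.mk_pow, QuotientGroup.eq_one_iff]
      exact hk
    have h4 : orderOf ((g : G ⧸ N) * (g' : G ⧸ N)) ∣ 2 ^ k := orderOf_dvd_of_pow_eq_one h3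
    obtain ⟨j, _, hj⟩ := (Nat.dvd_prime_pow Nat.prime_two).mp h4
    have hne : (g : G ⧸ N) * (g' : G ⧸ N) ≠ 1 := by
      intro h5
      have h6 : (g : G ⧸ N) * (g : G ⧸ N) = 1 := by
        have := pow_orderOf_eq_one (g : G ⧸ N)
        rwa [ha, pow_two] at this
      exact hab (mul_left_cancel (h6.trans h5.symm))
    rw [hj]
    have hj0 : j ≠ 0 := by
      rintro rfl
      rw [pow_zero] at hj
      exact hne (orderOf_eq_one_iff.mp hj)
    exact (Nat.even_pow' hj0).mpr even_two
  constructor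
  · rintro (h3 | h3)
    · exact absurd h3 hno
    · exact h3
  · intro h3
    exact Or.inr h3

end Pool.Agent.W5h18.IN
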