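import Pool.Agent.W5h18.IN.Defs

/-! (NO) all products of different involutions of even order; (UN) commuting involutions are
equal -/

set_option autoImplicit false

namespace Pool.Agent.W5h18.IN

theorem exists_pair {G : Type} [Group G] {D T : Set G} (hT : Adm D T) :
    ∃ a ∈ T, ∃ b ∈ D, b ∉ T := by
  obtain ⟨hTD, ⟨a, ha⟩, hne, -⟩ := hT
  by_contra hcon
  push Not at hcon
  exact hne (Set.Subset.antisymm hTD fun b hb => hcon a ha b hb)

theorem no (h : S_CR) : S_NO := by
  rintro G _ _ hev ⟨D, T, hD, hT⟩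
  obtain ⟨a, ha, b, hb, hbT⟩ := exists_pair hT
  have h1 := (h G D T hD hT.1 hT.2.1 hT.2.2.1).1 hT a ha b hb hbT
  have hab : a ≠ b := fun e => hbT (e ▸ ha)
  have h2 := hev a b (hD.1 a (hT.1 ha)) (hD.1 b hb) hab
  exact (Nat.not_even_iff_odd.2 h1) h2

theorem un : S_UN := by
  intro G _ _ hun
  constructor
  · rintro ⟨D, T, hD, hT⟩
    obtain ⟨a, ha, b, hb, hbT⟩ := exists_pair hT
    exact ⟨a, b, hD.1 a (hT.1 ha), hD.1 b hb, fun e => hbT (e ▸ ha)⟩
  · rintro ⟨a, b, ha, hb, hab⟩
    refine ⟨{x | orderOf x = 2}, {a}, ⟨fun d hd => hd, fun d hd g => ?_⟩, ?_, ⟨a, rfl⟩, ?_, ?_, ?_⟩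
    · have e : g⁻¹ * d * g = MulAut.conj g⁻¹ d := by simp [MulAut.conj_apply]
      show orderOf (g⁻¹ * d * g) = 2
      rw [e]
      exact (MulEquiv.orderOf_eq (MulAut.conj g⁻¹) d).trans hd
    · intro x hx
      rw [Set.mem_singleton_iff] at hx
      rw [hx]
      exact ha
    · intro heq
      have : b ∈ ({a} : Set G) := by
        rw [heq]
        exact hb
      exact hab (Set.mem_singleton_iff.1 this).symm
    · intro x hx d hd hc
      rw [Set.mem_singleton_iff] at hx
      subst hx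
      rw [Set.mem_singleton_iff]
      exact hun d x hd ha hc
    · intro x hx y hy _ hne
      rw [Set.mem_singleton_iff] at hx hy
      subst hx
      subst hy
      exact absurd (by rw [← pow_two, ← ha, pow_orderOf_eq_one]) hne

end Pool.Agent.W5h18.IN
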