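import Pool.Agent.W5h18.IN.Defs3

/-! (SO1) -/

namespace Pool.Agent.W5h18.IN

theorem so1 (h : S_CR) : S_SO1 := by
  intro G _ _ hsol
  obtain ⟨a, M, K, hM, _, _, _, ha, ⟨x0, hx0⟩, hall⟩ := hsol
  have ha2 : a * a = 1 := by rw [← pow_two, ← ha]; exact pow_orderOf_eq_one a
  have hainv : a⁻¹ = a := inv_eq_of_mul_eq_one_right ha2
  have oconj : ∀ d g : G, orderOf (g⁻¹ * d * g) = orderOf d := by
    intro d g
    have e : g⁻¹ * d * g = MulAut.conj g⁻¹ d := by simp
    rw [e]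
    exact MulEquiv.orderOf_eq (MulAut.conj g⁻¹) d
  set D : Set G := {b | ∃ x : G, b = x⁻¹ * a * x} with hD
  set T : Set G := {b | b ∈ D ∧ a * b ∈ M} with hT
  have hNSI : NSI D := by
    constructor
    · rintro _ ⟨x, rfl⟩
      rw [oconj, ha]
    · rintro _ ⟨x, rfl⟩ g
      exact ⟨x * g, by group⟩
  have haT : a ∈ T := ⟨⟨1, by group⟩, by rw [ha2]; exact M.one_mem⟩
  refine ⟨D, T, hNSI, (h G D T hNSI (fun b hb => hb.1) ⟨a, haT⟩ ?_).2 ?_⟩
  · intro heq
    have h1 : x0⁻¹ * a * x0 ∈ T := by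
      rw [heq]
      exact ⟨x0, rfl⟩
    exact hx0 h1.2
  · intro u hu v hv hvT
    obtain ⟨⟨y, hy⟩, huM⟩ := hu
    obtain ⟨z, hz⟩ := hv
    have hvM : a * v ∉ M := fun h2 => hvT ⟨⟨z, hz⟩, h2⟩
    have hu2 : u * u = 1 := by
      have h3 : orderOf u = 2 := by rw [hy, oconj, ha]
      rw [← pow_two, ← h3]
      exact pow_orderOf_eq_one u
    have huv : u * v ∉ M := by
      intro h2
      apply hvM
      have e : a * v = (a * u) * (u * v) := by
        calc a * v = a * (u * u) * v := by rw [hu2, mul_one]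
          _ = (a * u) * (u * v) := by group
      rw [e]
      exact M.mul_mem huM h2
    have e1 : u * v = y⁻¹ * (a * ((z * y⁻¹)⁻¹ * a * (z * y⁻¹))) * y := by
      rw [hy, hz]
      group
    rw [e1, oconj]
    apply (hall (z * y⁻¹)).2
    intro h2
    apply huv
    rw [e1]
    have := hM.conj_mem _ h2 y⁻¹
    rwa [inv_inv] at this

end Pool.Agent.W5h18.IN
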