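import Pool.Agent.W5h18.IN.Defs3

/-!
# MP_39b43f_al: solvable groups, piece (SO3) (helper8)
-/

namespace Pool.Agent.W5h18.IN

/-- a nontrivial abelian normal subgroup of a solvable quotient -/
theorem exists_abelian_normal {G : Type} [Group G] [Finite G] (hG : Group.IsSolvable G) (M : Subgroup G)
    [M.Normal] (hM : M ≠ ⊤) : ∃ K : Subgroup G, K.Normal ∧ M ≤ K ∧ ¬ K ≤ M ∧
      ∀ k ∈ K, ∀ l ∈ K, k * l * k⁻¹ * l⁻¹ ∈ M := by
  classical
  have hs : Group.IsSolvable (G ⧸ M) := inferInstance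
  have hex : ∃ n, derivedSeries (G ⧸ M) n = ⊥ := hs.solvable
  have hn : derivedSeries (G ⧸ M) (Nat.find hex) = ⊥ := Nat.find_spec hex
  rcases hm : Nat.find hex with _ | m
  · exfalso
    rw [hm, derivedSeries_zero] at hn
    apply hM
    rw [eq_top_iff]
    intro g _
    have : (QuotientGroup.mk g : G ⧸ M) ∈ (⊤ : Subgroup (G ⧸ M)) := Subgroup.mem_top _
    rw [hn, Subgroup.mem_bot] at this
    exact (QuotientGroup.eq_one_iff g).1 this
  · have hne : derivedSeries (G ⧸ M) m ≠ ⊥ := Nat.find_min hex (by omega)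
    rw [hm, derivedSeries_succ] at hn
    refine ⟨(derivedSeries (G ⧸ M) m).comap (QuotientGroup.mk' M), inferInstance, ?_, ?_, ?_⟩
    · intro x hx
      rw [Subgroup.mem_comap, QuotientGroup.mk'_apply, (QuotientGroup.eq_one_iff x).2 hx]
      exact one_mem _
    · intro hle
      apply hne
      rw [eq_bot_iff]
      intro q hq
      obtain ⟨x, rfl⟩ := QuotientGroup.mk'_surjective M q
      have : x ∈ M := hle hq
      rw [Subgroup.mem_bot, QuotientGroup.mk'_apply]
      exact (QuotientGroup.eq_one_iff x).2 this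
    · intro k hk l hl
      have h1 := Subgroup.commutator_mem_commutator (Subgroup.mem_comap.1 hk)
        (Subgroup.mem_comap.1 hl)
      rw [hn, Subgroup.mem_bot, commutatorElement_def] at h1
      have h2 : QuotientGroup.mk' M (k * l * k⁻¹ * l⁻¹) = 1 := by
        simpa using h1
      rw [QuotientGroup.mk'_apply] at h2
      exact (QuotientGroup.eq_one_iff _).1 h2

theorem so3 : S_SO3 := by
  classical
  intro G _ _ hsol a H hE
  obtain ⟨ha2, hHt, hHodd, haH, hfix, hodd⟩ := hE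
  obtain ⟨X, hX, hHX⟩ : ∃ X, IsCoatom X ∧ H ≤ X :=
    (eq_top_or_exists_le_coatom H).resolve_left hHt
  have haa : a * a = 1 := by
    have := pow_orderOf_eq_one a
    rwa [ha2, pow_two] at this
  have hai : a⁻¹ = a := inv_eq_of_mul_eq_one_left haa
  have hmul := Subgroup.relIndex_mul_index hHX
  rw [← hmul, Nat.odd_mul] at hHodd
  obtain ⟨hHX', hXodd⟩ := hHodd
  have haX : a ∈ X := hHX haH
  -- Claim 1
  have c1 : ∀ g : G, g * a * g⁻¹ ∈ X → g ∈ X := by
    intro g hg
    let b : X := ⟨g * a * g⁻¹, hg⟩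
    have hb : b * b = 1 := by
      apply Subtype.ext
      change g * a * g⁻¹ * (g * a * g⁻¹) = 1
      have : g * a * g⁻¹ * (g * a * g⁻¹) = g * (a * a) * g⁻¹ := by group
      rw [this, haa]
      group
    have hft : Fintype (X ⧸ H.subgroupOf X) := Fintype.ofFinite _
    have hcard : ¬ 2 ∣ Fintype.card (X ⧸ H.subgroupOf X) := by
      rw [← Nat.card_eq_fintype_card]
      change ¬ 2 ∣ H.relIndex X
      rw [Nat.two_dvd_ne_zero]
      exact Nat.odd_iff.1 hHX'
    have : Fact (Nat.Prime 2) := ⟨Nat.prime_two⟩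
    obtain ⟨q, hq⟩ := Equiv.Perm.exists_fixed_point_of_prime (p := 2) (n := 1) hcard
      (σ := MulAction.toPerm b) (by
        ext q
        simp only [pow_one, pow_two, Equiv.Perm.mul_apply, MulAction.toPerm_apply,
          Equiv.Perm.one_apply, smul_smul, hb, one_smul])
    induction q using QuotientGroup.induction_on with
    | H x =>
      rw [MulAction.toPerm_apply, MulAction.Quotient.smul_coe, QuotientGroup.eq,
        Subgroup.mem_subgroupOf] at hq
      have h1 : ((x : G)⁻¹ * g) * a * ((x : G)⁻¹ * g)⁻¹ ∈ H := by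
        have h3 := inv_mem hq
        have h4 : (((b • x)⁻¹ * x : X) : G)⁻¹ = ((x : G)⁻¹ * g) * a * ((x : G)⁻¹ * g)⁻¹ := by
          change ((g * a * g⁻¹ * (x : G))⁻¹ * (x : G))⁻¹ = _
          group
        rwa [h4] at h3
      have h2 := hHX (hfix _ h1)
      have h5 := mul_mem x.2 h2
      simpa using h5
  -- the core
  obtain ⟨M, hMdef⟩ : ∃ M, M = X.normalCore := ⟨_, rfl⟩
  have hMn : M.Normal := by rw [hMdef]; infer_instance
  have hMX : M ≤ X := by rw [hMdef]; exact Subgroup.normalCore_le X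
  have hcore : ∀ N : Subgroup G, N.Normal → N ≤ X → N ≤ M := by
    intro N hN h
    rw [hMdef]
    exact Subgroup.normal_le_normalCore.2 h
  have hMt : M ≠ ⊤ := fun h => hX.1 (top_le_iff.1 (h ▸ hMX))
  obtain ⟨K, hKn, hMK, hKM, hab⟩ := exists_abelian_normal hsol M hMt
  have hKX : X ⊔ K = ⊤ := by
    apply hX.2
    rw [left_lt_sup]
    exact fun h => hKM (hcore K hKn h)
  have hdec : ∀ g : G, ∃ x ∈ X, ∃ k ∈ K, x * k = g := by
    intro g
    have : g ∈ X ⊔ K := by rw [hKX]; exact Subgroup.mem_top g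
    exact Subgroup.mem_sup_of_normal_right.1 this
  -- a subgroup inside X normalised by X and K is in M
  have hnorm : ∀ N : Subgroup G, N ≤ X → (∀ x ∈ X, ∀ n ∈ N, x * n * x⁻¹ ∈ N) →
      (∀ k ∈ K, ∀ n ∈ N, k * n * k⁻¹ ∈ N) → N ≤ M := by
    intro N hN h1 h2
    refine hcore N ⟨fun n hn g => ?_⟩ hN
    obtain ⟨x, hx, k, hk, rfl⟩ := hdec g
    have := h1 x hx _ (h2 k hk n hn)
    have e : x * (k * n * k⁻¹) * x⁻¹ = x * k * n * (x * k)⁻¹ := by group
    rwa [e] at this
  have hKXM : K ⊓ X ≤ M := by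
    apply hnorm _ inf_le_right
    · intro x hx n hn
      exact ⟨hKn.conj_mem n hn.1 x, mul_mem (mul_mem hx hn.2) (X.inv_mem hx)⟩
    · intro k hk n hn
      refine ⟨hKn.conj_mem n hn.1 k, ?_⟩
      have h1 := hMX (hab k hk n hn.1)
      have h2 := mul_mem h1 hn.2
      simpa using h2
  have hKXe : K ⊓ X = M := le_antisymm hKXM (le_inf hMK hMX)
  -- a inverts K / M
  have hinv : ∀ f ∈ K, f * (a * f * a⁻¹) ∈ M := by
    intro f hf
    have hf' : a * f * a⁻¹ ∈ K := hKn.conj_mem f hf a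
    have hu : f * (a * f * a⁻¹) ∈ K := mul_mem hf hf'
    -- u a u⁻¹ ∈ X
    refine hKXM ⟨hu, c1 _ ?_⟩
    have h1 := hMX (hab f hf _ hf')
    -- f f' f⁻¹ f'⁻¹ ∈ X
    have h2 : f * (a * f * a⁻¹) * a * (f * (a * f * a⁻¹))⁻¹ =
        (f * (a * f * a⁻¹) * f⁻¹ * (a * f * a⁻¹)⁻¹) * a := by
      have e1 : f * (a * f * a⁻¹) * a * (f * (a * f * a⁻¹))⁻¹ =
        f * a * f * a * f⁻¹ * a⁻¹ * f⁻¹ := by group
      have e2 : f * (a * f * a⁻¹) * f⁻¹ * (a * f * a⁻¹)⁻¹ * a =
        f * a * f * a⁻¹ * f⁻¹ * a * f⁻¹ := by group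
      rw [e1, e2, hai]
    rw [h2]
    exact mul_mem h1 haX
  -- the centraliser of K / M
  have hQn : (K.map (QuotientGroup.mk' M)).Normal := hKn.map _ (QuotientGroup.mk'_surjective M)
  have hinvQ : ∀ y ∈ K.map (QuotientGroup.mk' M),
      QuotientGroup.mk' M a * y * (QuotientGroup.mk' M a)⁻¹ = y⁻¹ := by
    rintro _ ⟨f, hf, rfl⟩
    have h1 := (QuotientGroup.eq_one_iff _).2 (hinv f hf)
    rw [← QuotientGroup.mk'_apply, map_mul, map_mul, map_mul, map_inv] at h1
    exact eq_inv_of_mul_eq_one_right h1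
  obtain ⟨C, hC⟩ : ∃ C, C = (Subgroup.centralizer
    (K.map (QuotientGroup.mk' M) : Set (G ⧸ M))).comap (QuotientGroup.mk' M) := ⟨_, rfl⟩
  have hCn : C.Normal := by
    rw [hC]
    have : (Subgroup.centralizer (K.map (QuotientGroup.mk' M) : Set (G ⧸ M))).Normal :=
      inferInstance
    exact this.comap _
  have hCX : C ⊓ X ≤ M := by
    apply hnorm _ inf_le_right
    · intro x hx n hn
      exact ⟨hCn.conj_mem n hn.1 x, mul_mem (mul_mem hx hn.2) (X.inv_mem hx)⟩
    · intro k hk n hn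
      refine ⟨hCn.conj_mem n hn.1 k, ?_⟩
      have h1 : k * n * k⁻¹ * n⁻¹ ∈ M := by
        have h2 := hn.1
        rw [hC] at h2
        have h3 := Subgroup.mem_centralizer_iff.1 (Subgroup.mem_comap.1 h2)
          (QuotientGroup.mk' M k) (Subgroup.mem_map_of_mem _ hk)
        have h4 : QuotientGroup.mk' M (k * n * k⁻¹ * n⁻¹) = 1 := by
          rw [map_mul, map_mul, map_mul, map_inv, map_inv, h3]
          group
        rw [QuotientGroup.mk'_apply] at h4
        exact (QuotientGroup.eq_one_iff _).1 h4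
      have h5 := mul_mem (hMX h1) hn.2
      simpa using h5
  -- commutators
  have hcom : ∀ x ∈ X, a * (x⁻¹ * a * x) ∈ M := by
    intro x hx
    refine hCX ⟨?_, mul_mem haX (mul_mem (mul_mem (X.inv_mem hx) haX) hx)⟩
    rw [hC]
    refine Subgroup.mem_comap.2 (Subgroup.mem_centralizer_iff.2 fun y hy => ?_)
    have hz := hQn.conj_mem y hy (QuotientGroup.mk' M x)
    have h1 := hinvQ _ hz
    have h2 := hinvQ _ hy
    have h3 : QuotientGroup.mk' M (a * (x⁻¹ * a * x)) =
        QuotientGroup.mk' M a * (QuotientGroup.mk' M x)⁻¹ * QuotientGroup.mk' M a *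
          QuotientGroup.mk' M x := by
      rw [map_mul, map_mul, map_mul, map_inv]
      group
    rw [h3]
    generalize QuotientGroup.mk' M a = A at *
    generalize QuotientGroup.mk' M x = p at *
    have h4 : A * p⁻¹ * A * p * y * (A * p⁻¹ * A * p)⁻¹ = y := by
      have e1 : A * p⁻¹ * A * p * y * (A * p⁻¹ * A * p)⁻¹ =
          A * p⁻¹ * (A * (p * y * p⁻¹) * A⁻¹) * (A * p⁻¹)⁻¹ := by group
      have e2 : A * p⁻¹ * (p * y * p⁻¹)⁻¹ * (A * p⁻¹)⁻¹ = (A * y * A⁻¹)⁻¹ := by group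
      rw [e1, h1, e2, h2, inv_inv]
    have h5 := mul_inv_eq_iff_eq_mul.1 h4
    exact h5.symm
  refine ⟨a, M, K, hMn, hKn, hMK, ?_, ha2, ?_, ?_⟩
  · -- index
    have e1 : M.relIndex K * K.index = M.index := Subgroup.relIndex_mul_index hMK
    have e2 : M.relIndex X * X.index = M.index := Subgroup.relIndex_mul_index hMX
    have e3 : M.relIndex X = K.index := by
      rw [← hKXe, Subgroup.inf_relIndex_right, ← Subgroup.relIndex_sup_right X K, hKX,
        Subgroup.relIndex_top_right]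
    have e4 : K.index ≠ 0 := Subgroup.index_ne_zero_of_finite
    have e5 : M.relIndex K = X.index := by
      have : K.index * M.relIndex K = K.index * X.index := by
        rw [mul_comm, e1, ← e2, e3]
      exact Nat.eq_of_mul_eq_mul_left (Nat.pos_of_ne_zero e4) this
    rw [e5]
    exact hXodd
  · by_contra hall
    push Not at hall
    apply hX.1
    rw [eq_top_iff]
    intro x _
    have h1 := hMX (hall x⁻¹)
    have h2 := mul_mem (inv_mem haX) h1
    refine c1 x ?_
    simpa using h2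
  · intro g
    refine ⟨?_, fun hg => ?_⟩
    · obtain ⟨x, hx, k, hk, rfl⟩ := hdec g
      have h1 := hMK (hcom x hx)
      have h2 := hKn.conj_mem k⁻¹ (inv_mem hk) (x⁻¹ * a * x)⁻¹
      have h3 := mul_mem (mul_mem h1 h2) hk
      have e : a * (x⁻¹ * a * x) * ((x⁻¹ * a * x)⁻¹ * k⁻¹ * (x⁻¹ * a * x)⁻¹⁻¹) * k =
          a * ((x * k)⁻¹ * a * (x * k)) := by group
      rwa [e] at h3
    · have hgX : g ∉ X := fun h => hg (hcom g h)
      have h1 : g⁻¹ * a * g ∉ H := by
        intro h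
        apply hgX
        have h2 := c1 g⁻¹ (by rw [inv_inv]; exact hHX h)
        simpa using inv_mem h2
      have h3 := hodd 1 g (by simpa using haH) h1
      simpa using h3

end Pool.Agent.W5h18.IN
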