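import Pool.Agent.W5h18.IN.Defs

/-!
# Symmetric and alternating groups (MP_39b43f_al)
-/

namespace Pool.Agent.W5h18.IN

open Equiv

namespace ALx

/-- A set of permutations closed under conjugation by transpositions is normal. -/
theorem conj_all {n : ℕ} (T : Set (Perm (Fin n)))
    (h : ∀ a ∈ T, ∀ i j, swap i j * a * swap i j ∈ T) :
    ∀ g : Perm (Fin n), ∀ a ∈ T, g * a * g⁻¹ ∈ T := by
  intro g
  induction g using Equiv.Perm.swap_induction_on with
  | one => intro a ha; simpa using ha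
  | swap_mul f x y hxy ih =>
    intro a ha
    have h1 := h _ (ih a ha) x y
    rw [mul_inv_rev, Equiv.swap_inv]
    simpa only [mul_assoc] using h1

theorem no_sn (h : S_CR) (h2 : S_CL) (h5 : S_SN2) {n : ℕ} (hn : 6 ≤ n) :
    ¬ Has (Perm (Fin n)) := by
  rintro ⟨D, T, hD, hA⟩
  have hcr := (h _ D T hD hA.1 hA.2.1 hA.2.2.1).1 hA
  have hT := h5 n hn D T hD.1 (fun d hd i j => by simpa using hD.2 d hd (swap i j)) hA.1 hcr
  have hall := conj_all T hT
  obtain ⟨a, ha⟩ := hA.2.1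
  apply hA.2.2.1
  apply Set.Subset.antisymm hA.1
  intro b hb
  obtain ⟨g, _, hg⟩ := h2 _ D T hD hA a (hA.1 ha) b hb
  have h1 := hall g⁻¹ a ha
  rw [inv_inv, hg] at h1
  exact h1

/-- Conjugation by a transposition keeps a normal set of involutions of `A_n`. -/
theorem swap_mem {n : ℕ} {D : Set (alternatingGroup (Fin n))} (hD : NSI D)
    (d : Perm (Fin n)) (hd : d ∈ (Subtype.val '' D : Set (Perm (Fin n)))) (i j : Fin n) :
    swap i j * d * swap i j ∈ (Subtype.val '' D : Set (Perm (Fin n))) := by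
  obtain ⟨e, he, rfl⟩ := hd
  by_cases hij : i = j
  · subst hij
    simpa using ⟨e.2, he⟩
  have ho : orderOf (e : Perm (Fin n)) = 2 := by rw [Subgroup.orderOf_coe]; exact hD.1 e he
  have h1 : (e : Perm (Fin n)) ≠ 1 := by
    intro h; rw [h, orderOf_one] at ho; omega
  have h2 : (e : Perm (Fin n)) * e = 1 := by
    have := pow_orderOf_eq_one (e : Perm (Fin n)); rwa [ho, pow_two] at this
  obtain ⟨k, hk⟩ : ∃ k, (e : Perm (Fin n)) k ≠ k := by
    by_contra hcon
    push Not at hcon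
    exact h1 (Equiv.ext hcon)
  have h3 : (e : Perm (Fin n)) ((e : Perm (Fin n)) k) = k := by
    have := congrArg (fun f : Perm (Fin n) => f k) h2
    simpa using this
  obtain ⟨t, ht⟩ : ∃ t : Perm (Fin n), t = swap k ((e : Perm (Fin n)) k) := ⟨_, rfl⟩
  have hc : (e : Perm (Fin n)) * t = t * e := by
    rw [ht, Equiv.mul_swap_eq_swap_mul, h3, Equiv.swap_comm]
  have htt : t * t = 1 := by rw [ht, Equiv.swap_mul_self]
  have hg : swap i j * t ∈ alternatingGroup (Fin n) := by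
    rw [Equiv.Perm.mem_alternatingGroup, Equiv.Perm.sign_mul, Equiv.Perm.sign_swap hij, ht,
      Equiv.Perm.sign_swap (Ne.symm hk)]
    rfl
  refine ⟨_, hD.2 e he ⟨swap i j * t, hg⟩⁻¹, ?_⟩
  have ht' : t⁻¹ = t := inv_eq_of_mul_eq_one_left htt
  simp only [inv_inv, Subgroup.coe_mul, Subgroup.coe_inv, mul_inv_rev, Equiv.swap_inv, ht']
  calc swap i j * t * (e : Perm (Fin n)) * (t * swap i j)
      = swap i j * ((t * e) * t) * swap i j := by simp only [mul_assoc]
    _ = swap i j * ((e * t) * t) * swap i j := by rw [hc]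
    _ = swap i j * e * swap i j := by rw [mul_assoc (e : Perm (Fin n)) t t, htt, mul_one]

theorem no_al (h : S_CR) (h2 : S_CL) (h5 : S_SN2) {n : ℕ} (hn : 6 ≤ n) :
    ¬ Has (alternatingGroup (Fin n)) := by
  rintro ⟨D, T, hD, hA⟩
  have hcr := (h _ D T hD hA.1 hA.2.1 hA.2.2.1).1 hA
  have hT := h5 n hn (Subtype.val '' D) (Subtype.val '' T)
    (by rintro _ ⟨d, hd, rfl⟩; rw [Subgroup.orderOf_coe]; exact hD.1 d hd)
    (fun d hd i j => swap_mem hD d hd i j) (Set.image_mono hA.1)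
    (by
      rintro _ ⟨a, ha, rfl⟩ _ ⟨b, hb, rfl⟩ hbT
      have hb' : b ∉ T := fun hbt => hbT ⟨b, hbt, rfl⟩
      have := hcr a ha b hb hb'
      rwa [← Subgroup.orderOf_coe] at this)
  have hall := conj_all _ hT
  obtain ⟨a, ha⟩ := hA.2.1
  apply hA.2.2.1
  apply Set.Subset.antisymm hA.1
  intro b hb
  obtain ⟨g, _, hg⟩ := h2 _ D T hD hA a (hA.1 ha) b hb
  obtain ⟨c, hc, hc2⟩ := hall (g : Perm (Fin n))⁻¹ a ⟨a, ha, rfl⟩
  rw [inv_inv] at hc2
  have : c = b := by
    apply Subtype.ext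
    rw [hc2, ← hg]
    rfl
  rwa [this] at hc

theorem two {G : Type} [Group G] {a : G} (ha : orderOf a = 2) : a * a = 1 ∧ a ≠ 1 := by
  constructor
  · have := pow_orderOf_eq_one a; rwa [ha, pow_two] at this
  · intro h; rw [h, orderOf_one] at ha; omega

theorem even_of {G : Type} [Group G] {a : G} (h1 : a * a = 1) (h2 : a ≠ 1) :
    Even (orderOf a) := by
  have : orderOf a = 2 := orderOf_eq_prime (by rw [pow_two]; exact h1) h2
  rw [this]; exact even_two

theorem small2 : ∀ a b : Perm (Fin 2), a * a = 1 → a ≠ 1 → b * b = 1 → b ≠ 1 → a = b := by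
  decide

theorem small1 : ∀ a b : Perm (Fin 1), a * a = 1 → a ≠ 1 → b * b = 1 → b ≠ 1 → a = b := by
  decide

theorem small0 : ∀ a b : Perm (Fin 0), a * a = 1 → a ≠ 1 → b * b = 1 → b ≠ 1 → a = b := by
  decide

theorem alt4 : ∀ a b : Perm (Fin 4), Equiv.Perm.sign a = 1 → Equiv.Perm.sign b = 1 →
    a * a = 1 → b * b = 1 → (a * b) * (a * b) = 1 := by
  decide +kernel

theorem alt3 : ∀ a b : Perm (Fin 3), Equiv.Perm.sign a = 1 → Equiv.Perm.sign b = 1 →
    a * a = 1 → b * b = 1 → (a * b) * (a * b) = 1 := by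
  decide +kernel

theorem alt2 : ∀ a b : Perm (Fin 2), Equiv.Perm.sign a = 1 → Equiv.Perm.sign b = 1 →
    a * a = 1 → b * b = 1 → (a * b) * (a * b) = 1 := by
  decide +kernel

theorem alt1 : ∀ a b : Perm (Fin 1), Equiv.Perm.sign a = 1 → Equiv.Perm.sign b = 1 →
    a * a = 1 → b * b = 1 → (a * b) * (a * b) = 1 := by
  decide +kernel

theorem alt0 : ∀ a b : Perm (Fin 0), Equiv.Perm.sign a = 1 → Equiv.Perm.sign b = 1 →
    a * a = 1 → b * b = 1 → (a * b) * (a * b) = 1 := by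
  decide +kernel

theorem no_alt (h3 : S_NO) {n : ℕ}
    (hn : ∀ a b : Perm (Fin n), Equiv.Perm.sign a = 1 → Equiv.Perm.sign b = 1 →
      a * a = 1 → b * b = 1 → (a * b) * (a * b) = 1) :
    ¬ Has (alternatingGroup (Fin n)) := by
  refine h3 _ fun a b ha hb hab => ?_
  have ha' : orderOf (a : Perm (Fin n)) = 2 := by rw [Subgroup.orderOf_coe]; exact ha
  have hb' : orderOf (b : Perm (Fin n)) = 2 := by rw [Subgroup.orderOf_coe]; exact hb
  have h1 := hn a b (Equiv.Perm.mem_alternatingGroup.1 a.2)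
    (Equiv.Perm.mem_alternatingGroup.1 b.2) (two ha').1 (two hb').1
  have h2 : (a : Perm (Fin n)) * b ≠ 1 := by
    intro h
    apply hab
    apply Subtype.ext
    have h4 : (a : Perm (Fin n)) * b * b = b := by rw [h, one_mul]
    rw [mul_assoc, (two hb').1, mul_one] at h4
    exact h4
  rw [← Subgroup.orderOf_coe, Subgroup.coe_mul]
  exact even_of h1 h2

theorem no_perm (h3 : S_NO) {n : ℕ}
    (hn : ∀ a b : Perm (Fin n), a * a = 1 → a ≠ 1 → b * b = 1 → b ≠ 1 → a = b) :
    ¬ Has (Perm (Fin n)) := by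
  refine h3 _ fun a b ha hb hab => ?_
  exact absurd (hn a b (two ha).1 (two ha).2 (two hb).1 (two hb).2) hab

end ALx

theorem sn (h : S_CR) (h2 : S_CL) (h3 : S_NO) (h4 : S_SN1) (h5 : S_SN2) : S_SN := by
  intro n
  constructor
  · intro hH
    by_contra hcon
    rcases Nat.lt_or_ge n 6 with hn | hn
    · have : n = 0 ∨ n = 1 ∨ n = 2 := by omega
      rcases this with rfl | rfl | rfl
      · exact ALx.no_perm h3 ALx.small0 hH
      · exact ALx.no_perm h3 ALx.small1 hH
      · exact ALx.no_perm h3 ALx.small2 hH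
    · exact ALx.no_sn h h2 h5 hn hH
  · rintro (rfl | rfl | rfl)
    · exact h4.1
    · exact h4.2.1
    · exact h4.2.2.1

theorem al (h : S_CR) (h2 : S_CL) (h3 : S_NO) (h4 : S_SN1) (h5 : S_SN2) : S_AL := by
  intro n
  constructor
  · intro hH
    by_contra hcon
    rcases Nat.lt_or_ge n 6 with hn | hn
    · have : n = 0 ∨ n = 1 ∨ n = 2 ∨ n = 3 ∨ n = 4 := by omega
      rcases this with rfl | rfl | rfl | rfl | rfl
      · exact ALx.no_alt h3 ALx.alt0 hH
      · exact ALx.no_alt h3 ALx.alt1 hH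
      · exact ALx.no_alt h3 ALx.alt2 hH
      · exact ALx.no_alt h3 ALx.alt3 hH
      · exact ALx.no_alt h3 ALx.alt4 hH
    · exact ALx.no_al h h2 h5 hn hH
  · rintro rfl
    exact h4.2.2.2

end Pool.Agent.W5h18.IN
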