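import Pool.Agent.W5h18.IN.Defs

set_option autoImplicit false

namespace Pool.Agent.W5h18.IN

open DihedralGroup

namespace DIP

theorem odd_of_pow {G : Type} [Group G] {x : G} {m : ℕ} (hm : Odd m) (h : x ^ m = 1) :
    Odd (orderOf x) := hm.of_dvd_nat (orderOf_dvd_of_pow_eq_one h)

theorem exists_odd {n : ℕ} (h4 : ¬ 4 ∣ n) : ∃ m : ℕ, Odd m ∧ n ∣ 2 * m := by
  rcases Nat.even_or_odd n with ⟨k, hk⟩ | h
  · refine ⟨k, ?_, ⟨1, by omega⟩⟩
    rw [← Nat.not_even_iff_odd]
    rintro ⟨j, hj⟩
    exact h4 ⟨j, by omega⟩
  · exact ⟨n, h, Dvd.intro_left 2 rfl⟩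

/-- existence -/
theorem has {n : ℕ} (h : S_CR) (hn : 3 ≤ n) (h4 : ¬ 4 ∣ n) : Has (DihedralGroup n) := by
  have : NeZero n := ⟨by omega⟩
  obtain ⟨m, hm, hnm⟩ := exists_odd h4
  set D : Set (DihedralGroup n) := {x | ∃ k : ZMod n, x = sr (2 * k)} with hD
  have hN : NSI D := by
    refine ⟨?_, ?_⟩
    · rintro _ ⟨k, rfl⟩
      exact orderOf_sr _
    · rintro _ ⟨k, rfl⟩ g
      rcases g with j | j
      · refine ⟨k + j, ?_⟩
        rw [inv_r, r_mul_sr, sr_mul_r]
        congr 1
        ring
      · refine ⟨j - k, ?_⟩
        rw [inv_sr, sr_mul_sr, r_mul_sr]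
        congr 1
        ring
  have h2 : (2 : ZMod n) ≠ 0 := by
    intro h0
    have h1 : ((2 : ℕ) : ZMod n) = 0 := by exact_mod_cast h0
    rw [ZMod.natCast_eq_zero_iff] at h1
    have := Nat.le_of_dvd (by norm_num) h1
    omega
  refine ⟨D, {sr 0}, hN, ?_⟩
  rw [h (DihedralGroup n) D {sr 0} hN (by rintro _ rfl; exact ⟨0, by simp⟩)
    (Set.singleton_nonempty _) (by
      intro he
      have h1 : (sr (2 * 1) : DihedralGroup n) ∈ ({sr 0} : Set (DihedralGroup n)) := by
        rw [he]
        exact ⟨1, rfl⟩
      rw [Set.mem_singleton_iff] at h1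
      have h3 : (2 * 1 : ZMod n) = 0 := by injection h1
      rw [mul_one] at h3
      exact h2 h3)]
  rintro _ rfl _ ⟨k, rfl⟩ -
  apply odd_of_pow hm
  rw [sr_mul_sr, sub_zero, r_pow]
  have h3 : ((2 * m : ℕ) : ZMod n) = 0 := (ZMod.natCast_eq_zero_iff _ _).2 hnm
  push_cast at h3
  have h5 : (2 * k * (m : ZMod n)) = 0 := by
    calc (2 * k * (m : ZMod n)) = k * (2 * m) := by ring
      _ = 0 := by rw [h3, mul_zero]
  rw [h5]
  rfl

theorem two_of {n : ℕ} [NeZero n] {i : ZMod n} (h : orderOf (r i : DihedralGroup n) = 2) :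
    i + i = 0 := by
  have h1 : (r i : DihedralGroup n) ^ 2 = 1 := by rw [← h]; exact pow_orderOf_eq_one _
  rw [sq, r_mul_r, one_def] at h1
  injection h1

/-- elements of `T` and `D \ T` are reflections -/
theorem refl {n : ℕ} (h : S_CR) (hn : 0 < n) {D T : Set (DihedralGroup n)} (hD : NSI D)
    (hT : Adm D T) : 3 ≤ n ∧ ¬ 4 ∣ n := by
  have : NeZero n := ⟨hn.ne'⟩
  have key := (h (DihedralGroup n) D T hD hT.1 hT.2.1 hT.2.2.1).1 hT
  obtain ⟨a, ha⟩ := hT.2.1
  obtain ⟨b, hb, hbT⟩ : ∃ b ∈ D, b ∉ T := by
    by_contra hcon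
    push Not at hcon
    exact hT.2.2.1 (Set.Subset.antisymm hT.1 hcon)
  have hab := key a ha b hb hbT
  have ha2 := hD.1 a (hT.1 ha)
  have hb2 := hD.1 b hb
  have hne : a ≠ b := fun e => hbT (e ▸ ha)
  rcases a with i | i
  · rcases b with j | j
    · exfalso
      -- two rotations of order two are equal
      have h1 := two_of ha2
      have h2 := two_of hb2
      have h3 : (r i * r j : DihedralGroup n) ^ 2 = 1 := by
        rw [r_mul_r, sq, r_mul_r, one_def]
        congr 1
        calc i + j + (i + j) = (i + i) + (j + j) := by ring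
          _ = 0 := by rw [h1, h2, add_zero]
      have h4 : orderOf (r i * r j : DihedralGroup n) ∣ 2 := orderOf_dvd_of_pow_eq_one h3
      have h5 : orderOf (r i * r j : DihedralGroup n) = 1 := by
        rcases (Nat.dvd_prime Nat.prime_two).1 h4 with h5 | h5
        · exact h5
        · rw [h5] at hab
          exact absurd hab (by decide)
      rw [orderOf_eq_one_iff, mul_eq_one_iff_eq_inv] at h5
      apply hne
      rw [h5, inv_r]
      congr 1
      rw [neg_eq_iff_add_eq_zero]
      exact h2
    · exfalso
      rw [r_mul_sr, orderOf_sr] at hab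
      exact absurd hab (by decide)
  · rcases b with j | j
    · exfalso
      rw [sr_mul_r, orderOf_sr] at hab
      exact absurd hab (by decide)
    · rw [sr_mul_sr] at hab
      obtain ⟨m, hm⟩ : ∃ m, orderOf (r (j - i) : DihedralGroup n) = m := ⟨_, rfl⟩
      rw [hm] at hab
      have h1 : (r (j - i) : DihedralGroup n) ^ m = 1 := by rw [← hm]; exact pow_orderOf_eq_one _
      rw [r_pow, one_def] at h1
      have h2 : (j - i) * (m : ZMod n) = 0 := by injection h1
      have hij : j - i ≠ 0 := by
        intro h0
        apply hne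
        rw [sub_eq_zero] at h0
        rw [h0]
      refine ⟨?_, ?_⟩
      · by_contra hlt
        have h3 : n = 1 ∨ n = 2 := by omega
        rcases h3 with rfl | rfl
        · exact hij (Subsingleton.elim _ _)
        · have h4 : (m : ZMod 2) = 1 := by
            obtain ⟨k, hk⟩ := hab
            rw [hk]
            push_cast
            have : (2 : ZMod 2) = 0 := rfl
            rw [this, zero_mul, zero_add]
          rw [h4, mul_one] at h2
          exact hij h2
      · intro h4
        -- all `sr (i + 2 k)` are in `T`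
        have step : ∀ k : ℕ, sr (i + 2 * (k : ZMod n)) ∈ T := by
          intro k
          induction k with
          | zero => simpa using ha
          | succ k ih =>
            by_contra hcon
            have hmem : sr (i + 2 * ((k + 1 : ℕ) : ZMod n)) ∈ D := by
              have h5 := hD.2 _ (hT.1 ih) (r 1)
              rw [inv_r, r_mul_sr, sr_mul_r] at h5
              convert h5 using 2
              push_cast
              ring
            have h5 := key _ ih _ hmem hcon
            rw [sr_mul_sr] at h5
            have h6 : i + 2 * ((k + 1 : ℕ) : ZMod n) - (i + 2 * (k : ZMod n)) = 2 := by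
              push_cast
              ring
            rw [h6] at h5
            obtain ⟨q, hq⟩ : ∃ q, orderOf (r 2 : DihedralGroup n) = q := ⟨_, rfl⟩
            rw [hq] at h5
            have h7 : (r 2 : DihedralGroup n) ^ q = 1 := by rw [← hq]; exact pow_orderOf_eq_one _
            rw [r_pow, one_def] at h7
            have h8 : (2 : ZMod n) * (q : ZMod n) = 0 := by injection h7
            have h9 : ((2 * q : ℕ) : ZMod n) = 0 := by push_cast; exact h8
            rw [ZMod.natCast_eq_zero_iff] at h9
            have h10 := h4.trans h9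
            obtain ⟨c, hc⟩ := h5
            omega
        -- `j - i` is divisible by four
        have h5 : ((((j - i).val * m : ℕ)) : ZMod n) = 0 := by
          push_cast
          rw [ZMod.natCast_zmod_val]
          exact h2
        rw [ZMod.natCast_eq_zero_iff] at h5
        have h6 := h4.trans h5
        have h7 : 2 ∣ (j - i).val := by
          have h8 : 2 ∣ (j - i).val * m := Dvd.dvd.trans (by norm_num) h6
          rcases Nat.prime_two.dvd_mul.1 h8 with h9 | h9
          · exact h9
          · exfalso
            obtain ⟨c, hc⟩ := hab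
            omega
        obtain ⟨k, hk⟩ := h7
        apply hbT
        have h8 := step k
        have h9 : i + 2 * (k : ZMod n) = j := by
          have h10 : (((j - i).val : ℕ) : ZMod n) = j - i := ZMod.natCast_zmod_val _
          rw [hk] at h10
          push_cast at h10
          rw [h10]
          ring
        rwa [h9] at h8

end DIP

theorem di (h : S_CR) : S_DI := by
  intro n hn
  constructor
  · rintro ⟨D, T, hD, hT⟩
    have := DIP.refl h hn hD hT
    exact ⟨this.2, this.1⟩
  · rintro ⟨h4, h3⟩
    exact DIP.has h h3 h4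

end Pool.Agent.W5h18.IN
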