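import Pool.Agent.W5h18.IN.Defs

set_option autoImplicit false

/-!
# (SL) `SL₂` over finite fields of characteristic two
-/

namespace Pool.Agent.W5h18.IN

namespace SLH

open Matrix

variable {F : Type} [Field F]

theorem det1 (g : SpecialLinearGroup (Fin 2) F) :
    g.1 0 0 * g.1 1 1 - g.1 0 1 * g.1 1 0 = 1 := by
  have h := g.2
  rw [det_fin_two] at h
  exact h

theorem mul_e (g h : SpecialLinearGroup (Fin 2) F) (i j : Fin 2) :
    (g * h).1 i j = g.1 i 0 * h.1 0 j + g.1 i 1 * h.1 1 j := by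
  have : (g * h).1 = g.1 * h.1 := rfl
  rw [this, Matrix.mul_apply, Fin.sum_univ_two]

theorem ext4 (g h : SpecialLinearGroup (Fin 2) F) (h00 : g.1 0 0 = h.1 0 0)
    (h01 : g.1 0 1 = h.1 0 1) (h10 : g.1 1 0 = h.1 1 0) (h11 : g.1 1 1 = h.1 1 1) : g = h := by
  apply Subtype.ext
  ext i j
  fin_cases i <;> fin_cases j
  · exact h00
  · exact h01
  · exact h10
  · exact h11

theorem one_e : (1 : SpecialLinearGroup (Fin 2) F).1 0 0 = 1 ∧
    (1 : SpecialLinearGroup (Fin 2) F).1 0 1 = 0 ∧ (1 : SpecialLinearGroup (Fin 2) F).1 1 0 = 0 ∧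
    (1 : SpecialLinearGroup (Fin 2) F).1 1 1 = 1 := by
  have : (1 : SpecialLinearGroup (Fin 2) F).1 = (1 : Matrix (Fin 2) (Fin 2) F) := rfl
  rw [this]
  simp

theorem pw (g : SpecialLinearGroup (Fin 2) F) (k : ℕ) : ∃ α β : F,
    (g ^ k).1 0 0 = α + β * g.1 0 0 ∧ (g ^ k).1 0 1 = β * g.1 0 1 ∧
    (g ^ k).1 1 0 = β * g.1 1 0 ∧ (g ^ k).1 1 1 = α + β * g.1 1 1 := by
  induction k with
  | zero =>
    refine ⟨1, 0, ?_⟩
    rw [pow_zero]
    obtain ⟨h1, h2, h3, h4⟩ := one_e (F := F)
    rw [h1, h2, h3, h4]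
    simp
  | succ k ih =>
    obtain ⟨α, β, h1, h2, h3, h4⟩ := ih
    have hd := det1 g
    refine ⟨-β, α + β * (g.1 0 0 + g.1 1 1), ?_, ?_, ?_, ?_⟩
    · rw [pow_succ, mul_e, h1, h2]; linear_combination (-β) * hd
    · rw [pow_succ, mul_e, h1, h2]; ring
    · rw [pow_succ, mul_e, h3, h4]; ring
    · rw [pow_succ, mul_e, h3, h4]; linear_combination (-β) * hd

theorem sq_one [CharP F 2] {x : F} (h : x * x = 1) : x = 1 := by
  have h2 : (2 : F) = 0 := CharTwo.two_eq_zero
  have : (x - 1) * (x - 1) = 0 := by linear_combination h + (1 - x) * h2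
  have := mul_self_eq_zero.mp this
  linear_combination this

/-- an element of even order has trace zero -/
theorem tr0 [CharP F 2] (g z : SpecialLinearGroup (Fin 2) F) (k : ℕ) (hz : z = g ^ k)
    (hz1 : z ≠ 1) (hz2 : z * z = 1) : g.1 0 0 + g.1 1 1 = 0 := by
  have h2 : (2 : F) = 0 := CharTwo.two_eq_zero
  obtain ⟨α, β, h1, h2', h3, h4⟩ := pw g k
  rw [← hz] at h1 h2' h3 h4
  obtain ⟨o1, o2, o3, o4⟩ := one_e (F := F)
  have e00 := mul_e z z 0 0
  have e01 := mul_e z z 0 1
  have e10 := mul_e z z 1 0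
  have e11 := mul_e z z 1 1
  rw [hz2] at e00 e01 e10 e11
  rw [o1, h1, h2', h3] at e00
  rw [o2, h1, h2', h4] at e01
  rw [o3, h1, h3, h4] at e10
  rw [o4, h2', h3, h4] at e11
  have hd := det1 g
  set p := g.1 0 0 with hp
  set q := g.1 0 1 with hq
  set r := g.1 1 0 with hr
  set s := g.1 1 1 with hs
  by_contra ht
  have hβ : β ≠ 0 := by
    intro hβ
    subst hβ
    apply hz1
    have hα : α = 1 := sq_one (by linear_combination -e00)
    apply ext4
    · rw [h1, o1, hα]; ring
    · rw [h2', o2]; ring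
    · rw [h3, o3]; ring
    · rw [h4, o4, hα]; ring
  have hb : β * β * (p + s) ≠ 0 := mul_ne_zero (mul_ne_zero hβ hβ) ht
  have hq0 : q = 0 := by
    have : (β * β * (p + s)) * q = 0 := by linear_combination -e01 - (α * β * q) * h2
    exact (mul_eq_zero.mp this).resolve_left hb
  have hps : p = s := by
    have : (β * β * (p + s)) * (p - s) = 0 := by
      linear_combination -e00 + e11 - (α * β * (p - s)) * h2
    have := (mul_eq_zero.mp this).resolve_left hb
    linear_combination this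
  apply ht
  rw [hps]
  linear_combination s * h2

theorem inv_sq [CharP F 2] (g : SpecialLinearGroup (Fin 2) F) (h : g.1 0 0 + g.1 1 1 = 0) :
    g * g = 1 := by
  have h2 : (2 : F) = 0 := CharTwo.two_eq_zero
  obtain ⟨o1, o2, o3, o4⟩ := one_e (F := F)
  have hd := det1 g
  apply ext4
  · rw [mul_e, o1]; linear_combination g.1 0 0 * h - hd - h2
  · rw [mul_e, o2]; linear_combination g.1 0 1 * h
  · rw [mul_e, o3]; linear_combination g.1 1 0 * h
  · rw [mul_e, o4]; linear_combination g.1 1 1 * h - hd - h2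

theorem ord2 (g : SpecialLinearGroup (Fin 2) F) : orderOf g = 2 ↔ g ≠ 1 ∧ g * g = 1 := by
  constructor
  · intro h
    refine ⟨?_, ?_⟩
    · rintro rfl
      rw [orderOf_one] at h
      omega
    · rw [← pow_two]
      have := pow_orderOf_eq_one g
      rwa [h] at this
  · rintro ⟨h1, h2⟩
    exact orderOf_eq_prime (by rw [pow_two]; exact h2) h1

end SLH

open SLH Matrix in
theorem sl (hCR : S_CR) : S_SL := by
  intro F _ _ _
  classical
  have h2 : (2 : F) = 0 := CharTwo.two_eq_zero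
  obtain ⟨o1, o2, o3, o4⟩ := one_e (F := F)
  have : Finite (SpecialLinearGroup (Fin 2) F) := inferInstance
  let D : Set (SpecialLinearGroup (Fin 2) F) := {g | orderOf g = 2}
  let T : Set (SpecialLinearGroup (Fin 2) F) := {g | orderOf g = 2 ∧ g.1 1 0 = 0}
  have hNSI : NSI D := by
    refine ⟨fun d hd => hd, ?_⟩
    intro d hd g
    show orderOf (g⁻¹ * d * g) = 2
    have hd' : orderOf d = 2 := hd
    rw [ord2] at hd' ⊢
    refine ⟨?_, ?_⟩
    · intro h
      apply hd'.1
      have : d = g * (g⁻¹ * d * g) * g⁻¹ := by group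
      rw [this, h]
      group
    · have : g⁻¹ * d * g * (g⁻¹ * d * g) = g⁻¹ * (d * d) * g := by group
      rw [this, hd'.2]
      group
  let u : SpecialLinearGroup (Fin 2) F := ⟨!![1, 1; 0, 1], by rw [det_fin_two]; simp⟩
  let v : SpecialLinearGroup (Fin 2) F := ⟨!![1, 0; 1, 1], by rw [det_fin_two]; simp⟩
  have hu : orderOf u = 2 := by
    rw [ord2]
    refine ⟨?_, inv_sq u ?_⟩
    · intro h
      have : u.1 0 1 = (1 : SpecialLinearGroup (Fin 2) F).1 0 1 := by rw [h]
      rw [o2] at this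
      exact one_ne_zero (this : (1 : F) = 0)
    · show (1 : F) + 1 = 0
      linear_combination h2
  have hv : orderOf v = 2 := by
    rw [ord2]
    refine ⟨?_, inv_sq v ?_⟩
    · intro h
      have : v.1 1 0 = (1 : SpecialLinearGroup (Fin 2) F).1 1 0 := by rw [h]
      rw [o3] at this
      exact one_ne_zero (this : (1 : F) = 0)
    · show (1 : F) + 1 = 0
      linear_combination h2
  refine ⟨D, T, hNSI, (hCR _ D T hNSI (fun g hg => hg.1) ⟨u, hu, rfl⟩ ?_).mpr ?_⟩
  · intro h
    have hvT : v ∈ T := by rw [h]; exact hv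
    have h3 : v.1 1 0 = 0 := hvT.2
    exact one_ne_zero (h3 : (1 : F) = 0)
  · rintro a ⟨ha, ha0⟩ b hb hbT
    by_contra hodd
    rw [Nat.not_odd_iff_even] at hodd
    obtain ⟨m, hm⟩ := hodd
    have hpos : 0 < orderOf (a * b) := orderOf_pos _
    have hz1 : (a * b) ^ m ≠ 1 := by
      intro h
      have := orderOf_dvd_of_pow_eq_one h
      have := Nat.le_of_dvd (by omega) this
      omega
    have hz2 : (a * b) ^ m * (a * b) ^ m = 1 := by
      rw [← pow_add, ← hm]
      exact pow_orderOf_eq_one _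
    have htr := tr0 (a * b) _ m rfl hz1 hz2
    have hsq := inv_sq (a * b) htr
    rw [ord2] at ha
    have hb' := (ord2 b).mp hb
    have hcomm : a * b = b * a := by
      have h1 : a * b = (a * b)⁻¹ := eq_inv_of_mul_eq_one_left hsq
      rw [_root_.mul_inv_rev] at h1
      rw [h1, eq_comm, show b⁻¹ = b from (eq_inv_of_mul_eq_one_left hb'.2).symm,
        show a⁻¹ = a from (eq_inv_of_mul_eq_one_left ha.2).symm]
    apply hbT
    refine ⟨hb, ?_⟩
    -- `a` is upper unitriangular
    have hda := det1 a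
    rw [ha0] at hda
    have ea := mul_e a a 0 0
    rw [ha.2, o1, ha0] at ea
    have ha1 : a.1 0 0 = 1 := sq_one (by linear_combination -ea)
    have ha2 : a.1 1 1 = 1 := by rw [ha1] at hda; linear_combination hda
    have hx : a.1 0 1 ≠ 0 := by
      intro hx
      apply ha.1
      apply ext4
      · rw [ha1, o1]
      · rw [hx, o2]
      · rw [ha0, o3]
      · rw [ha2, o4]
    have e1 := mul_e a b 0 0
    rw [hcomm, mul_e, ha0, ha1] at e1
    have : a.1 0 1 * b.1 1 0 = 0 := by linear_combination -e1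
    exact (mul_eq_zero.mp this).resolve_left hx

end Pool.Agent.W5h18.IN
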