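import Pool.Agent.W5h18.IN.Defs

/-!
# (SN1) admissible pairs in `S_3`, `S_4`, `S_5`, `A_5`
-/

namespace Pool.Agent.W5h18.IN

open Equiv

namespace SN1x

theorem nsi_of {G : Type} [Group G] (P : G → Prop) (hP : ∀ d g, P d → P (g⁻¹ * d * g)) :
    NSI {d : G | d * d = 1 ∧ d ≠ 1 ∧ P d} := by
  refine ⟨fun d hd => orderOf_eq_prime (by rw [pow_two]; exact hd.1) hd.2.1,
    fun d hd g => ⟨?_, ?_, hP d g hd.2.2⟩⟩
  · calc g⁻¹ * d * g * (g⁻¹ * d * g) = g⁻¹ * (d * d) * g := by group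
      _ = 1 := by rw [hd.1]; group
  · intro h
    apply hd.2.1
    have e : d = g * (g⁻¹ * d * g) * g⁻¹ := by group
    rw [e, h]; group

/-! ### `n = 3` -/

theorem has3 : Has (Perm (Fin 3)) := by
  refine ⟨{d | d * d = 1 ∧ d ≠ 1 ∧ True}, {d | d = swap 0 1}, nsi_of _ (fun _ _ _ => trivial), ?_⟩
  have h4 : ∀ d : Perm (Fin 3), d * d = 1 → d ≠ 1 → d * swap 0 1 = swap 0 1 * d →
      d = swap 0 1 := by decide
  refine ⟨?_, ⟨swap 0 1, rfl⟩, ?_, ?_, ?_⟩
  · intro d hd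
    have : d = swap 0 1 := hd
    subst this
    exact ⟨by decide, by decide, trivial⟩
  · intro he
    have : (swap 0 2 : Perm (Fin 3)) ∈ {d : Perm (Fin 3) | d = swap 0 1} := by
      rw [he]
      exact ⟨by decide, by decide, trivial⟩
    have h : (swap 0 2 : Perm (Fin 3)) = swap 0 1 := this
    exact absurd h (by decide)
  · intro a ha d hd hc
    have : a = swap 0 1 := ha
    subst this
    exact h4 d hd.1 hd.2.1 hc
  · intro a ha b hb _ hne
    have h1 : a = swap 0 1 := ha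
    have h2 : b = swap 0 1 := hb
    subst h1 h2
    exact absurd (swap_mul_self _ _) hne

/-! ### `n = 4` -/

theorem has4 : Has (Perm (Fin 4)) := by
  refine ⟨{d | d * d = 1 ∧ d ≠ 1 ∧ ∃ x, d x = x}, {d | d = swap 0 1 ∨ d = swap 2 3},
    nsi_of _ ?_, ?_⟩
  · rintro d g ⟨x, hx⟩
    exact ⟨g⁻¹ x, by simp [hx]⟩
  have h4 : ∀ d : Perm (Fin 4), (d * d = 1 ∧ d ≠ 1 ∧ ∃ x, d x = x) →
      d * swap 0 1 = swap 0 1 * d → (d = swap 0 1 ∨ d = swap 2 3) := by decide
  have h5 : ∀ d : Perm (Fin 4), (d * d = 1 ∧ d ≠ 1 ∧ ∃ x, d x = x) →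
      d * swap 2 3 = swap 2 3 * d → (d = swap 0 1 ∨ d = swap 2 3) := by decide
  have h6 : ∀ d : Perm (Fin 4), (d * d = 1 ∧ d ≠ 1 ∧ ∃ x, d x = x) →
      d * (swap 0 1 * swap 2 3) = swap 0 1 * swap 2 3 * d →
        (d = swap 0 1 ∨ d = swap 2 3) := by decide
  have h7 : (swap 2 3 * swap 0 1 : Perm (Fin 4)) = swap 0 1 * swap 2 3 := by decide
  refine ⟨?_, ⟨swap 0 1, Or.inl rfl⟩, ?_, ?_, ?_⟩
  · intro d hd
    rcases hd with rfl | rfl
    · exact ⟨by decide, by decide, by decide⟩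
    · exact ⟨by decide, by decide, by decide⟩
  · intro he
    have : (swap 0 2 : Perm (Fin 4)) ∈ {d : Perm (Fin 4) | d = swap 0 1 ∨ d = swap 2 3} := by
      rw [he]
      exact ⟨by decide, by decide, by decide⟩
    have h : (swap 0 2 : Perm (Fin 4)) = swap 0 1 ∨ (swap 0 2 : Perm (Fin 4)) = swap 2 3 := this
    exact absurd h (by decide)
  · intro a ha d hd hc
    rcases ha with rfl | rfl
    · exact h4 d hd hc
    · exact h5 d hd hc
  · intro a ha b hb _ hne d hd hc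
    rcases ha with rfl | rfl <;> rcases hb with rfl | rfl
    · exact absurd (swap_mul_self _ _) hne
    · exact h6 d hd hc
    · rw [h7] at hc
      exact h6 d hd hc
    · exact absurd (swap_mul_self _ _) hne

/-! ### `n = 5` -/

/-- exactly one fixed point -/
def P5 (s : Perm (Fin 5)) : Prop := ∃ x, s x = x ∧ ∀ y, s y = y → y = x

instance : DecidablePred P5 := fun s => by unfold P5; infer_instance

theorem pig1 : ∀ x y u p : Fin 5, (x ≠ y ∧ x ≠ 4 ∧ y ≠ 4 ∧ u ≠ x ∧ u ≠ y ∧ u ≠ 4 ∧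
    p ≠ u ∧ p ≠ 4 ∧ p ≠ x ∧ p ≠ y) → x.val + y.val + u.val + p.val = 6 := by
  decide +kernel

theorem pig (x y u p q : Fin 5) (h1 : x ≠ y) (h2 : x ≠ 4) (h3 : y ≠ 4) (h4 : u ≠ x) (h5 : u ≠ y)
    (h6 : u ≠ 4) (p1 : p ≠ u) (p2 : p ≠ 4) (p3 : p ≠ x) (p4 : p ≠ y) (q1 : q ≠ u) (q2 : q ≠ 4)
    (q3 : q ≠ x) (q4 : q ≠ y) : p = q := by
  have a1 := pig1 x y u p ⟨h1, h2, h3, h4, h5, h6, p1, p2, p3, p4⟩
  have a2 := pig1 x y u q ⟨h1, h2, h3, h4, h5, h6, q1, q2, q3, q4⟩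
  exact Fin.ext (by omega)

theorem eq_of (a b : Perm (Fin 5)) (ha : a * a = 1) (hb : b * b = 1)
    (ha4 : a 4 = 4) (hb4 : b 4 = 4) (hfa : ∀ y, a y = y → y = 4) (hfb : ∀ y, b y = y → y = 4)
    (x : Fin 5) (hx : x ≠ 4) (hab : a x = b x) : a = b := by
  have haa : ∀ z, a (a z) = z := fun z => by
    have := congrArg (fun s : Perm (Fin 5) => s z) ha
    simpa using this
  have hbb : ∀ z, b (b z) = z := fun z => by
    have := congrArg (fun s : Perm (Fin 5) => s z) hb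
    simpa using this
  ext1 u
  by_cases h1 : u = 4
  · rw [h1, ha4, hb4]
  by_cases h2 : u = x
  · rw [h2, hab]
  by_cases h3 : u = a x
  · rw [h3, haa, hab, hbb]
  refine pig x (a x) u (a u) (b u) ?_ hx ?_ h2 h3 h1 ?_ ?_ ?_ ?_ ?_ ?_ ?_ ?_
  · exact fun h => hx (hfa x h.symm)
  · exact fun h => hx (a.injective (h.trans ha4.symm))
  · exact fun h => h1 (hfa u h)
  · exact fun h => h1 (a.injective (h.trans ha4.symm))
  · exact fun h => h3 (by rw [← h, haa])
  · exact fun h => h2 (a.injective h)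
  · exact fun h => h1 (hfb u h)
  · exact fun h => h1 (b.injective (h.trans hb4.symm))
  · exact fun h => h3 (by rw [hab, ← h, hbb])
  · exact fun h => h2 (b.injective (h.trans hab))

theorem has5 {G : Type} [Group G] (φ : G →* Perm (Fin 5)) (hφ : Function.Injective φ) (g1 g2 : G)
    (h1 : φ g1 = swap 0 1 * swap 2 3) (h2 : φ g2 = swap 1 2 * swap 3 4) : Has G := by
  refine ⟨{d | d * d = 1 ∧ d ≠ 1 ∧ P5 (φ d)}, {d | (d * d = 1 ∧ d ≠ 1 ∧ P5 (φ d)) ∧ φ d 4 = 4},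
    nsi_of _ ?_, ?_⟩
  · rintro d g ⟨x, hx, hu⟩
    refine ⟨(φ g)⁻¹ x, by simp [hx], fun y hy => ?_⟩
    have e : φ d (φ g y) = φ g y := by
      have := congrArg (φ g) hy
      simpa using this
    have := hu _ e
    rw [← this]; simp
  have hsq : ∀ d : G, d * d = 1 → φ d * φ d = 1 := fun d hd => by
    rw [← map_mul, hd, map_one]
  have huniq : ∀ d : G, P5 (φ d) → φ d 4 = 4 → ∀ y, φ d y = y → y = 4 := by
    rintro d ⟨x, _, hu⟩ h4 y hy
    rw [hu y hy, hu 4 h4]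
  have hmem : ∀ (g : G) (s : Perm (Fin 5)), φ g = s → s * s = 1 → s ≠ 1 → P5 s →
      g * g = 1 ∧ g ≠ 1 ∧ P5 (φ g) := by
    intro g s hs hs1 hs2 hs3
    refine ⟨hφ (by rw [map_mul, hs, hs1, map_one]), ?_, by rw [hs]; exact hs3⟩
    rintro rfl
    exact hs2 (by rw [← hs, map_one])
  refine ⟨fun d hd => hd.1, ⟨g1, hmem g1 _ h1 (by decide) (by decide) (by decide), ?_⟩, ?_, ?_, ?_⟩
  · rw [h1]; decide
  · intro he
    have hin : g2 ∈ {d : G | d * d = 1 ∧ d ≠ 1 ∧ P5 (φ d)} :=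
      hmem g2 _ h2 (by decide) (by decide) (by decide)
    rw [← he] at hin
    have := hin.2
    rw [h2] at this
    exact absurd this (by decide)
  · intro a ha d hd hc
    refine ⟨hd, ?_⟩
    have e : φ a (φ d 4) = φ d 4 := by
      have := congrArg (fun g => φ g 4) hc
      simp only [map_mul, Perm.mul_apply] at this
      rw [← this, ha.2]
    exact huniq a ha.1.2.2 ha.2 _ e
  · intro a ha b hb hab hne d hd hc
    refine ⟨hd, ?_⟩
    have e : φ a (φ b (φ d 4)) = φ d 4 := by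
      have := congrArg (fun g => φ g 4) hc
      simp only [map_mul, Perm.mul_apply] at this
      rw [← this, hb.2, ha.2]
    by_contra hx
    apply hne
    have haa : ∀ z, φ a (φ a z) = z := fun z => by
      have := congrArg (fun s : Perm (Fin 5) => s z) (hsq a ha.1.1)
      simpa using this
    have e2 : φ a (φ d 4) = φ b (φ d 4) := by
      have := congrArg (φ a) e
      rw [haa] at this
      exact this.symm
    have e3 : φ a = φ b := eq_of (φ a) (φ b) (hsq a ha.1.1) (hsq b hb.1.1) ha.2 hb.2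
      (huniq a ha.1.2.2 ha.2) (huniq b hb.1.2.2 hb.2) (φ d 4) hx e2
    have e4 : a = b := hφ e3
    rw [← e4]
    exact ha.1.1

end SN1x

open SN1x in
theorem sn1 (_h : S_CR) : S_SN1 := by
  refine ⟨has3, has4, has5 (MonoidHom.id _) Function.injective_id _ _ rfl rfl,
    has5 (alternatingGroup (Fin 5)).subtype Subtype.val_injective
      ⟨swap 0 1 * swap 2 3, ?_⟩ ⟨swap 1 2 * swap 3 4, ?_⟩ rfl rfl⟩
  · rw [Perm.mem_alternatingGroup, map_mul, Perm.sign_swap (by decide), Perm.sign_swap (by decide)]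
    rfl
  · rw [Perm.mem_alternatingGroup, map_mul, Perm.sign_swap (by decide), Perm.sign_swap (by decide)]
    rfl

end Pool.Agent.W5h18.IN
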