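import Pool.Agent.W5h18.IN.Defs

/-!
# (SN2) symmetric groups of degree at least six
-/

set_option autoImplicit false

namespace Pool.Agent.W5h18.IN

open Equiv

namespace SN2P

/-- an element swapping two points has even order -/
theorem odd_no_swap {α : Type} {g : Perm α} (h : Odd (orderOf g)) {p q : α} (h1 : g p = q)
    (h2 : g q = p) : p = q := by
  obtain ⟨k, hk⟩ := h
  have h3 : ∀ m : ℕ, (g ^ (2 * m)) p = p := by
    intro m
    induction m with
    | zero => rfl
    | succ m ih =>
      rw [show 2 * (m + 1) = 2 + 2 * m by ring, pow_add, Perm.mul_apply, ih, pow_two, Perm.mul_apply,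
        h1, h2]
  have h4 : (g ^ (2 * k + 1)) p = p := by
    rw [← hk, pow_orderOf_eq_one]
    rfl
  rw [pow_succ', Perm.mul_apply, h3, h1] at h4
  exact h4.symm

theorem key {n : ℕ} {D T : Set (Perm (Fin n))} (hT : ∀ a ∈ T, ∀ b ∈ D, b ∉ T → Odd (orderOf (a * b)))
    {a c : Perm (Fin n)} (ha : a ∈ T) (hc : c ∈ D) {p q : Fin n} (hpq : p ≠ q)
    (h1 : a (c p) = q) (h2 : a (c q) = p) : c ∈ T := by
  by_contra hcT
  exact hpq (odd_no_swap (hT a ha c hc hcT) h1 h2)

theorem inv_of {α : Type} {a : Perm α} (h : orderOf a = 2) (x : α) : a (a x) = x := by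
  have h1 : a ^ 2 = 1 := by rw [← h, pow_orderOf_eq_one]
  have h2 := congrArg (fun g : Perm α => g x) h1
  simpa [pow_two] using h2

/-- a point outside a small set -/
theorem ex_out {n : ℕ} (hn : 6 ≤ n) (s : Finset (Fin n)) (hs : s.card ≤ 5) : ∃ x, x ∉ s := by
  by_contra h
  push Not at h
  have h1 : s = Finset.univ := Finset.eq_univ_iff_forall.2 h
  rw [h1, Finset.card_univ, Fintype.card_fin] at hs
  omega

/-- the mixed case: `i` moved and `j` fixed -/
theorem mixed {n : ℕ} (hn : 6 ≤ n) {D T : Set (Perm (Fin n))} (hD : ∀ d ∈ D, orderOf d = 2)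
    (hcj : ∀ d ∈ D, ∀ i j, swap i j * d * swap i j ∈ D) (hTD : T ⊆ D)
    (hT : ∀ a ∈ T, ∀ b ∈ D, b ∉ T → Odd (orderOf (a * b)))
    {a : Perm (Fin n)} (ha : a ∈ T) {i j : Fin n} (hi : a i ≠ i) (hj : a j = j) :
    swap i j * a * swap i j ∈ T := by
  have hinv := inv_of (hD a (hTD ha))
  have hb : swap i j * a * swap i j ∈ D := hcj a (hTD ha) i j
  obtain ⟨i', hi'⟩ : ∃ i', a i = i' := ⟨_, rfl⟩
  have hai' : a i' = i := by rw [← hi', hinv]
  have n1 : i' ≠ i := by rw [← hi']; exact hi
  have n2 : i ≠ j := by rintro rfl; exact hi hj
  have n3 : i' ≠ j := by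
    intro h
    rw [h, hj] at hai'
    exact n2 hai'.symm
  by_cases h2 : ∃ p q, p ≠ q ∧ p ≠ j ∧ q ≠ j ∧ a p = p ∧ a q = q
  · obtain ⟨p, q, hpq, hpj, hqj, hp, hq⟩ := h2
    have m1 : p ≠ i := by rintro rfl; exact hi hp
    have m2 : q ≠ i := by rintro rfl; exact hi hq
    have m3 : p ≠ i' := by rintro rfl; rw [hp] at hai'; exact m1 hai'
    have m4 : q ≠ i' := by rintro rfl; rw [hq] at hai'; exact m2 hai'
    have hc : swap i p * (swap i' q * a * swap i' q) * swap i p ∈ D :=
      hcj _ (hcj a (hTD ha) i' q) i p
    have c1 : (swap i p * (swap i' q * a * swap i' q) * swap i p) p = q := by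
      simp only [Perm.mul_apply]
      rw [swap_apply_right, swap_apply_of_ne_of_ne n1.symm m2.symm, hi', swap_apply_left,
        swap_apply_of_ne_of_ne m2 hpq.symm]
    have c2 : (swap i p * (swap i' q * a * swap i' q) * swap i p) q = p := by
      simp only [Perm.mul_apply]
      rw [swap_apply_of_ne_of_ne m2 hpq.symm, swap_apply_right, hai',
        swap_apply_of_ne_of_ne n1.symm m2.symm, swap_apply_left]
    have hcT : swap i p * (swap i' q * a * swap i' q) * swap i p ∈ T :=
      key hT ha hc hpq (by rw [c1, hq]) (by rw [c2, hp])
    have b1 : (swap i j * a * swap i j) p = p := by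
      simp only [Perm.mul_apply]
      rw [swap_apply_of_ne_of_ne m1 hpj, hp, swap_apply_of_ne_of_ne m1 hpj]
    have b2 : (swap i j * a * swap i j) q = q := by
      simp only [Perm.mul_apply]
      rw [swap_apply_of_ne_of_ne m2 hqj, hq, swap_apply_of_ne_of_ne m2 hqj]
    exact key hT hcT hb hpq (by rw [b1, c1]) (by rw [b2, c2])
  · by_cases h1 : ∃ p, p ≠ j ∧ a p = p
    · obtain ⟨p, hpj, hp⟩ := h1
      have hfix : ∀ x, a x = x → x = j ∨ x = p := by
        intro x hx
        by_contra h
        push Not at h
        exact h2 ⟨x, p, h.2, h.1, hpj, hx, hp⟩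
      have m1 : p ≠ i := by rintro rfl; exact hi hp
      have m3 : p ≠ i' := by rintro rfl; rw [hp] at hai'; exact m1 hai'
      obtain ⟨r, hr⟩ := ex_out hn {i, i', j, p} (Finset.card_le_four.trans (by norm_num))
      simp only [Finset.mem_insert, Finset.mem_singleton, not_or] at hr
      obtain ⟨r1, r2, r3, r4⟩ := hr
      obtain ⟨s, hs⟩ : ∃ s, a r = s := ⟨_, rfl⟩
      have has : a s = r := by rw [← hs, hinv]
      have s0 : s ≠ r := by
        intro h
        rw [h] at hs
        rcases hfix r hs with h3 | h3
        · exact r3 h3
        · exact r4 h3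
      have s1 : s ≠ i := by rintro rfl; rw [hi'] at has; exact r2 has.symm
      have s2 : s ≠ i' := by rintro rfl; rw [hai'] at has; exact r1 has.symm
      have s3 : s ≠ j := by rintro rfl; rw [hj] at has; exact r3 has.symm
      have s4 : s ≠ p := by rintro rfl; rw [hp] at has; exact r4 has.symm
      have hc : swap r j * (swap s p * a * swap s p) * swap r j ∈ D :=
        hcj _ (hcj a (hTD ha) s p) r j
      have c1 : (swap r j * (swap s p * a * swap s p) * swap r j) j = p := by
        simp only [Perm.mul_apply]
        rw [swap_apply_right, swap_apply_of_ne_of_ne s0.symm r4, hs, swap_apply_left,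
          swap_apply_of_ne_of_ne (Ne.symm r4) hpj]
      have c2 : (swap r j * (swap s p * a * swap s p) * swap r j) p = j := by
        simp only [Perm.mul_apply]
        rw [swap_apply_of_ne_of_ne (Ne.symm r4) hpj, swap_apply_right, has,
          swap_apply_of_ne_of_ne s0.symm r4, swap_apply_left]
      have c3 : (swap r j * (swap s p * a * swap s p) * swap r j) r = r := by
        simp only [Perm.mul_apply]
        rw [swap_apply_left, swap_apply_of_ne_of_ne s3.symm hpj.symm, hj,
          swap_apply_of_ne_of_ne s3.symm hpj.symm, swap_apply_right]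
      have c4 : (swap r j * (swap s p * a * swap s p) * swap r j) s = s := by
        simp only [Perm.mul_apply]
        rw [swap_apply_of_ne_of_ne s0 s3, swap_apply_left, hp, swap_apply_right,
          swap_apply_of_ne_of_ne s0 s3]
      have hcT : swap r j * (swap s p * a * swap s p) * swap r j ∈ T :=
        key hT ha hc hpj.symm (by rw [c1, hp]) (by rw [c2, hj])
      have b1 : (swap i j * a * swap i j) r = s := by
        simp only [Perm.mul_apply]
        rw [swap_apply_of_ne_of_ne r1 r3, hs, swap_apply_of_ne_of_ne s1 s3]
      have b2 : (swap i j * a * swap i j) s = r := by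
        simp only [Perm.mul_apply]
        rw [swap_apply_of_ne_of_ne s1 s3, has, swap_apply_of_ne_of_ne r1 r3]
      exact key hT hcT hb s0.symm (by rw [b1, c4]) (by rw [b2, c3])
    · have hfix : ∀ x, a x = x → x = j := by
        intro x hx
        by_contra h
        exact h1 ⟨x, h, hx⟩
      obtain ⟨r, hr⟩ := ex_out hn {i, i', j} (Finset.card_le_three.trans (by norm_num))
      simp only [Finset.mem_insert, Finset.mem_singleton, not_or] at hr
      obtain ⟨r1, r2, r3⟩ := hr
      obtain ⟨s, hs⟩ : ∃ s, a r = s := ⟨_, rfl⟩
      have has : a s = r := by rw [← hs, hinv]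
      have s0 : s ≠ r := by
        intro h
        rw [h] at hs
        exact r3 (hfix r hs)
      have s1 : s ≠ i := by rintro rfl; rw [hi'] at has; exact r2 has.symm
      have s2 : s ≠ i' := by rintro rfl; rw [hai'] at has; exact r1 has.symm
      have s3 : s ≠ j := by rintro rfl; rw [hj] at has; exact r3 has.symm
      obtain ⟨t, ht⟩ := ex_out hn {i, i', j, r, s} Finset.card_le_five
      simp only [Finset.mem_insert, Finset.mem_singleton, not_or] at ht
      obtain ⟨t1, t2, t3, t4, t5⟩ := ht
      obtain ⟨w, hw⟩ : ∃ w, a t = w := ⟨_, rfl⟩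
      have haw : a w = t := by rw [← hw, hinv]
      have w0 : w ≠ t := by
        intro h
        rw [h] at hw
        exact t3 (hfix t hw)
      have w1 : w ≠ i := by rintro rfl; rw [hi'] at haw; exact t2 haw.symm
      have w2 : w ≠ i' := by rintro rfl; rw [hai'] at haw; exact t1 haw.symm
      have w3 : w ≠ j := by rintro rfl; rw [hj] at haw; exact t3 haw.symm
      have w4 : w ≠ r := by rintro rfl; rw [hs] at haw; exact t5 haw.symm
      have w5 : w ≠ s := by rintro rfl; rw [has] at haw; exact t4 haw.symm
      have hc : swap s t * a * swap s t ∈ D := hcj a (hTD ha) s t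
      have c1 : (swap s t * a * swap s t) r = t := by
        simp only [Perm.mul_apply]
        rw [swap_apply_of_ne_of_ne s0.symm (Ne.symm t4), hs, swap_apply_left]
      have c2 : (swap s t * a * swap s t) t = r := by
        simp only [Perm.mul_apply]
        rw [swap_apply_right, has, swap_apply_of_ne_of_ne s0.symm (Ne.symm t4)]
      have c3 : (swap s t * a * swap s t) w = s := by
        simp only [Perm.mul_apply]
        rw [swap_apply_of_ne_of_ne w5 w0, haw, swap_apply_right]
      have c4 : (swap s t * a * swap s t) s = w := by
        simp only [Perm.mul_apply]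
        rw [swap_apply_left, hw, swap_apply_of_ne_of_ne w5 w0]
      have hcT : swap s t * a * swap s t ∈ T :=
        key hT ha hc w4.symm (by rw [c1, hw]) (by rw [c3, has])
      have b1 : (swap i j * a * swap i j) r = s := by
        simp only [Perm.mul_apply]
        rw [swap_apply_of_ne_of_ne r1 r3, hs, swap_apply_of_ne_of_ne s1 s3]
      have b2 : (swap i j * a * swap i j) w = t := by
        simp only [Perm.mul_apply]
        rw [swap_apply_of_ne_of_ne w1 w3, haw, swap_apply_of_ne_of_ne t1 t3]
      exact key hT hcT hb w4.symm (by rw [b1, c4]) (by rw [b2, c2])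

end SN2P

open SN2P

/-- (SN2) -/
theorem sn2 : S_SN2 := by
  intro n hn D T hD hcj hTD hT a ha i j
  have hinv := inv_of (hD a (hTD ha))
  by_cases hij : i = j
  · subst hij
    rw [swap_self]
    exact ha
  by_cases hi : a i = i
  · by_cases hj : a j = j
    · have h : swap i j * a * swap i j = a := by
        ext x
        simp only [Perm.mul_apply]
        congr 1
        by_cases hxi : x = i
        · rw [hxi, swap_apply_left, hj, swap_apply_right, hi]
        · by_cases hxj : x = j
          · rw [hxj, swap_apply_right, hi, swap_apply_left, hj]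
          · rw [swap_apply_of_ne_of_ne hxi hxj, swap_apply_of_ne_of_ne]
            · intro h
              apply hxi
              have := congrArg a h
              rw [hinv, hi] at this
              exact this
            · intro h
              apply hxj
              have := congrArg a h
              rw [hinv, hj] at this
              exact this
      rw [h]
      exact ha
    · rw [swap_comm i j]
      exact mixed hn hD hcj hTD hT ha hj hi
  · by_cases hj : a j = j
    · exact mixed hn hD hcj hTD hT ha hi hj
    · by_cases hs : a i = j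
      · have hs2 : a j = i := by rw [← hs, hinv]
        have h : swap i j * a * swap i j = a := by
          ext x
          simp only [Perm.mul_apply]
          congr 1
          by_cases hxi : x = i
          · rw [hxi, swap_apply_left, hs2, swap_apply_left, hs]
          · by_cases hxj : x = j
            · rw [hxj, swap_apply_right, hs, swap_apply_right, hs2]
            · rw [swap_apply_of_ne_of_ne hxi hxj, swap_apply_of_ne_of_ne]
              · intro h
                apply hxj
                have := congrArg a h
                rw [hinv, hs] at this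
                exact this
              · intro h
                apply hxi
                have := congrArg a h
                rw [hinv, hs2] at this
                exact this
        rw [h]
        exact ha
      · have hs2 : a j ≠ i := by
          intro h
          apply hs
          rw [← h, hinv]
        refine key hT ha (hcj a (hTD ha) i j) hij ?_ ?_
        · simp only [Perm.mul_apply]
          rw [swap_apply_left, swap_apply_of_ne_of_ne hs2 hj, hinv]
        · simp only [Perm.mul_apply]
          rw [swap_apply_right, swap_apply_of_ne_of_ne hi hs, hinv]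

end Pool.Agent.W5h18.IN
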