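import Pool.Agent.W5h18.IN.Defs

/-!
# (CR) the criterion
-/

namespace Pool.Agent.W5h18.IN

namespace CR

variable {G : Type} [Group G]

theorem sq_one {d : G} (h : orderOf d = 2) : d * d = 1 := by
  have := pow_orderOf_eq_one d
  rwa [h, pow_two] at this

theorem inv_eq {d : G} (h : orderOf d = 2) : d⁻¹ = d :=
  inv_eq_of_mul_eq_one_left (sq_one h)

/-- `a r a = r⁻¹` for `r = ab`. -/
theorem conj_pow {a b : G} (ha : a * a = 1) (hb : b * b = 1) (k : ℕ) :
    a * (a * b) ^ k * a = ((a * b) ^ k)⁻¹ := by
  have hai : a⁻¹ = a := inv_eq_of_mul_eq_one_left ha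
  have hbi : b⁻¹ = b := inv_eq_of_mul_eq_one_left hb
  have h1 : a * (a * b) ^ k * a⁻¹ = (a * (a * b) * a⁻¹) ^ k := (_root_.conj_pow).symm
  rw [hai] at h1
  rw [h1, ← inv_pow, mul_inv_rev, hai, hbi]
  congr 1
  rw [← mul_assoc, ha, one_mul]

end CR

open CR in
/-- The criterion. -/
theorem cr : S_CR := by
  intro G _ _ D T hD hTD hne hTn
  constructor
  · intro hA a haT b hbD hbT
    by_contra hodd
    rw [Nat.not_odd_iff_even] at hodd
    obtain ⟨m, hm⟩ := hodd
    have haD := hTD haT
    have ha := sq_one (hD.1 a haD)
    have hb := sq_one (hD.1 b hbD)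
    have hai := inv_eq (hD.1 a haD)
    have hbi := inv_eq (hD.1 b hbD)
    have hpos : 0 < orderOf (a * b) := orderOf_pos _
    have hm0 : 0 < m := by omega
    set r := a * b with hr
    set z := r ^ m with hz
    have hzz : z * z = 1 := by
      rw [hz, ← pow_add, ← hm, pow_orderOf_eq_one]
    have hz1 : z ≠ 1 := by
      intro h
      have := orderOf_dvd_of_pow_eq_one h
      have := Nat.le_of_dvd hm0 this
      omega
    have hzi : z⁻¹ = z := inv_eq_of_mul_eq_one_left hzz
    have haza : a * z * a = z := by
      rw [hz, hr, conj_pow ha hb, ← hr, ← hz, hzi]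
    have hza : z * a = a * z := by
      calc z * a = (a * z * a) * a := by rw [haza]
        _ = a * z * (a * a) := by group
        _ = a * z := by rw [ha, mul_one]
    have hzr : z * r = r * z := by
      rw [hz, ← pow_succ, ← pow_succ']
    have hbar : b = a * r := by rw [hr, ← mul_assoc, ha, one_mul]
    have hzb : z * b = b * z := by
      calc z * b = (z * a) * r := by rw [hbar, mul_assoc]
        _ = a * (z * r) := by rw [hza, mul_assoc]
        _ = (a * r) * z := by rw [hzr, ← mul_assoc]
        _ = b * z := by rw [← hbar]
    -- `a z` is in `D`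
    have hazD : a * z ∈ D := by
      rcases Nat.even_or_odd' m with ⟨k, hk | hk⟩
      · have h1 : a * z = (r ^ k)⁻¹ * a * r ^ k := by
          rw [← conj_pow ha hb k, ← hr, hz, hk, two_mul, pow_add]
          calc a * (r ^ k * r ^ k) = a * r ^ k * 1 * r ^ k := by group
            _ = a * r ^ k * (a * a) * r ^ k := by rw [ha]
            _ = _ := by group
        rw [h1]
        exact hD.2 a haD _
      · have h1 : a * z = (r ^ k)⁻¹ * b * r ^ k := by
          rw [← conj_pow ha hb k, ← hr, hz, hk, two_mul, pow_succ, pow_add, hbar]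
          have h2 : r ^ k * r ^ k * r = r ^ k * r * r ^ k := by
            rw [mul_assoc, mul_assoc, ← pow_succ, ← pow_succ']
          rw [h2]
          calc a * (r ^ k * r * r ^ k) = a * r ^ k * 1 * r * r ^ k := by group
            _ = a * r ^ k * (a * a) * r * r ^ k := by rw [ha]
            _ = _ := by group
        rw [h1]
        exact hD.2 b hbD _
    obtain ⟨_, _, _, h3, h4⟩ := hA
    have hcomm : a * z * a = a * (a * z) := by
      rw [mul_assoc, hza]
    have hazT : a * z ∈ T := h3 a haT _ hazD hcomm
    have hprod : a * (a * z) = z := by rw [← mul_assoc, ha, one_mul]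
    refine hbT (h4 a haT (a * z) hazT hcomm.symm ?_ b hbD ?_)
    · rw [hprod]; exact hz1
    · rw [hprod]; exact hzb.symm
  · intro h
    refine ⟨hTD, hne, hTn, ?_, ?_⟩
    · intro a haT d hdD hcomm
      by_contra hdT
      have ha := sq_one (hD.1 a (hTD haT))
      have hd := sq_one (hD.1 d hdD)
      have hodd := h a haT d hdD hdT
      have h2 : (a * d) ^ 2 = 1 := by
        rw [pow_two]
        calc a * d * (a * d) = a * (d * a) * d := by group
          _ = a * (a * d) * d := by rw [hcomm]
          _ = (a * a) * (d * d) := by group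
          _ = 1 := by rw [ha, hd, one_mul]
      have hdvd := orderOf_dvd_of_pow_eq_one h2
      have h1 : orderOf (a * d) = 1 := by
        rcases (Nat.dvd_prime Nat.prime_two).1 hdvd with h5 | h5
        · exact h5
        · rw [h5] at hodd
          exact absurd hodd (by decide)
      have h6 := orderOf_eq_one_iff.1 h1
      have h7 : d = a := by
        have := eq_inv_of_mul_eq_one_right h6
        rw [this, inv_eq (hD.1 a (hTD haT))]
      rw [h7] at hdT
      exact hdT haT
    · intro a haT b hbT hab hab1 d hdD hcomm
      by_contra hdT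
      have ha := sq_one (hD.1 a (hTD haT))
      have hb := sq_one (hD.1 b (hTD hbT))
      set z := a * b with hz
      have hzz : z * z = 1 := by
        calc z * z = a * (b * a) * b := by rw [hz]; group
          _ = a * (a * b) * b := by rw [← hab]
          _ = (a * a) * (b * b) := by group
          _ = 1 := by rw [ha, hb, one_mul]
      have hza : z * a = b := by
        rw [hab, mul_assoc, ha, mul_one]
      have haz : a * z = b := by
        rw [hz, ← mul_assoc, ha, one_mul]
      have hcza : Commute z a := by
        rw [commute_iff_eq, hza, haz]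
      have hczd : Commute z d := by
        rw [commute_iff_eq]; exact hcomm.symm
      have hc : Commute z (a * d) := hcza.mul_right hczd
      have hbd : b * d = z * (a * d) := by rw [← mul_assoc, hza]
      have ho1 := h a haT d hdD hdT
      have ho2 := h b hbT d hdD hdT
      have ho := ho1.mul ho2
      have e1 : (b * d) ^ (orderOf (a * d) * orderOf (b * d)) = 1 := by
        rw [mul_comm, pow_mul, pow_orderOf_eq_one, one_pow]
      have e2 : (a * d) ^ (orderOf (a * d) * orderOf (b * d)) = 1 := by
        rw [pow_mul, pow_orderOf_eq_one, one_pow]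
      generalize orderOf (a * d) * orderOf (b * d) = N at ho e1 e2
      rw [hbd, hc.mul_pow, e2, mul_one] at e1
      obtain ⟨k, hk⟩ := ho
      apply hab1
      have e3 : z ^ (2 * k + 1) = z := by
        rw [pow_succ, pow_mul, pow_two, hzz, one_pow, one_mul]
      rw [← e3, ← hk]
      exact e1

end Pool.Agent.W5h18.IN
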