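import Mathlib

/-!
# Finite groups with a centralizer-closed set of involutions (MP_39b43f_al): targets
-/

namespace Pool.Agent.W5h18.IN

/-- `D` is a normal set of involutions. -/
def NSI {G : Type} [Group G] (D : Set G) : Prop :=
  (∀ d ∈ D, orderOf d = 2) ∧ ∀ d ∈ D, ∀ g : G, g⁻¹ * d * g ∈ D

/-- `T` is an admissible subset of `D`. -/
def Adm {G : Type} [Group G] (D T : Set G) : Prop :=
  T ⊆ D ∧ T.Nonempty ∧ T ≠ D ∧ (∀ a ∈ T, ∀ d ∈ D, d * a = a * d → d ∈ T) ∧
    ∀ a ∈ T, ∀ b ∈ T, a * b = b * a → a * b ≠ 1 → ∀ d ∈ D, d * (a * b) = a * b * d → d ∈ T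

/-- `G` has an admissible pair. -/
def Has (G : Type) [Group G] : Prop := ∃ D T : Set G, NSI D ∧ Adm D T

/-- The conjugate `g⁻¹ S g`. -/
def cj {G : Type} [Group G] (g : G) (S : Set G) : Set G := {x | g * x * g⁻¹ ∈ S}

/-- (CR) the criterion. `ab` of even order `2m`, `z = (ab)^m` an involution, `m` odd: `az` is
conjugate to `b`, `m` even: `az` is conjugate to `a`; so `az ∈ D` commutes with `a`, `az ∈ T`,
`a(az) = z` commutes with `b`, `b ∈ T`. Conversely `a, b ∈ T`, `z = ab`, `c ∉ T` commuting with `z`: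
`bc = z(ac)`, `ac` of odd order and `z` commutes with it, so `bc` has even order. -/
def S_CR : Prop := ∀ (G : Type) [Group G] [Finite G] (D T : Set G), NSI D → T ⊆ D → T.Nonempty →
  T ≠ D → (Adm D T ↔ ∀ a ∈ T, ∀ b ∈ D, b ∉ T → Odd (orderOf (a * b)))

/-- (CL) `D` is one class of the subgroup generated by `D` (`ab` of odd order `2k+1`, then `(ab)^k`
(or its inverse) conjugates `a` to `b`; two elements of `T` through an element of `D \ T`). -/
def S_CL : Prop := ∀ (G : Type) [Group G] [Finite G] (D T : Set G), NSI D → Adm D T →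
  ∀ a ∈ D, ∀ b ∈ D, ∃ g ∈ Subgroup.closure D, g⁻¹ * a * g = b

/-- (ST) a minimal admissible subset `T₀`: its conjugates partition `D` (intersection and
difference of admissible sets are admissible or empty, by (CR)), and every `d ∈ D` normalises exactly
one of them (`d ∈ T'`, `d` normalising `T'' ∌ d`: for `b ∈ T''` the element `d` is conjugate to `b` in
`⟨d, b⟩`, which normalises `T''`, so `d ∈ T''`). So the number of conjugates is odd. -/
def S_ST : Prop := ∀ (G : Type) [Group G] [Finite G] (D T : Set G), NSI D → Adm D T →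
  ∃ T₀ ⊆ T, Adm D T₀ ∧ (∀ g : G, cj g T₀ = T₀ ∨ Disjoint (cj g T₀) T₀) ∧
    (∀ d ∈ D, ∃ g : G, d ∈ cj g T₀) ∧
    (∀ d ∈ D, ∀ g : G, cj d (cj g T₀) = cj g T₀ ↔ d ∈ cj g T₀) ∧
    Odd {S | ∃ g : G, S = cj g T₀}.ncard ∧ 3 ≤ {S | ∃ g : G, S = cj g T₀}.ncard

/-- (QU) normal subgroups of odd order: the order of `ab` is odd iff it is odd modulo `N`;
involutions of `G ⧸ N` lift. -/
def S_QU : Prop := ∀ (G : Type) [Group G] [Finite G] (N : Subgroup G) [N.Normal],
  Odd (Nat.card N) → (Has G ↔ Has (G ⧸ N) ∨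
    ∃ a : G, orderOf a = 2 ∧ a ∉ Subgroup.center G ∧ (a : G ⧸ N) ∈ Subgroup.center (G ⧸ N))

/-- (PR) direct products. `(a, b)` and `(a', b')` in `D`: the product has even order iff `aa'` or
`bb'` has. By (CL) `D` is the class of `(a, b)`; if some conjugate of `a` has with `a` a product of
even order, fibres `{a} × b^H` are inside `T` or outside. -/
def S_PR : Prop := ∀ (G H : Type) [Group G] [Group H] [Finite G] [Finite H],
  (Has (G × H) ↔ Has G ∨ Has H)

/-- (NO) products of different involutions all of even order: none (e.g. normal Sylow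
`2`-subgroup). -/
def S_NO : Prop := ∀ (G : Type) [Group G] [Finite G],
  (∀ a b : G, orderOf a = 2 → orderOf b = 2 → a ≠ b → Even (orderOf (a * b))) → ¬ Has G

/-- (UN) commuting involutions are equal: an admissible pair exists iff there are two
involutions (`T = {a}`). -/
def S_UN : Prop := ∀ (G : Type) [Group G] [Finite G],
  (∀ a b : G, orderOf a = 2 → orderOf b = 2 → a * b = b * a → a = b) →
  (Has G ↔ ∃ a b : G, orderOf a = 2 ∧ orderOf b = 2 ∧ a ≠ b)

/-- (SE) strongly embedded subgroups: `D` all involutions, `T = D ∩ H`. -/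
def S_SE : Prop := ∀ (G : Type) [Group G] [Finite G] (H : Subgroup G), H ≠ ⊤ →
  Even (Nat.card H) → (∀ g : G, g ∉ H → ∀ x ∈ H, g * x * g⁻¹ ∈ H → orderOf x ≠ 2) → Has G

/-- (SL) `SL₂` over finite fields of characteristic two: `T` the involutions fixing `(1,0)`; an
element of even order of `SL₂` has order two. -/
def S_SL : Prop := ∀ (F : Type) [Field F] [Finite F] [CharP F 2],
  Has (Matrix.SpecialLinearGroup (Fin 2) F)

/-- (DI) dihedral groups. -/
def S_DI : Prop := ∀ n : ℕ, 0 < n → (Has (DihedralGroup n) ↔ ¬ 4 ∣ n ∧ 3 ≤ n)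

/-- (SN1) symmetric groups, existence. `n = 3`: transpositions, `T = {(0 1)}`; `n = 4`:
transpositions, `T = {(0 1), (2 3)}`; `n = 5`: products of two transpositions,
`T` those fixing `4` (decide). -/
def S_SN1 : Prop := Has (Equiv.Perm (Fin 3)) ∧ Has (Equiv.Perm (Fin 4)) ∧
  Has (Equiv.Perm (Fin 5)) ∧ Has (alternatingGroup (Fin 5))

/-- (SN2) `n ≥ 6`: a set of involutions of `Perm (Fin n)` closed under conjugation by
transpositions has no nonempty proper subset `T` such that `ab` has odd order for `a ∈ T`,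
`b ∈ D \ T`. For `a ∈ T` and `τ = (i j)`, `b = τaτ ∈ T`: clear if `a` fixes both or neither of `i, j`
(`ab = (ai aj)(ij)` of order 2). Let `a i = i' ≠ i`, `a j = j`. If `a` fixes `p ≠ q`, both `≠ j`:
`c = xax`, `x = (i p)(i' q)`; if `a` fixes exactly `j, p`: a 2-cycle `(r s)`, `x = (r j)(s p)`; if `a` fixes
exactly `j`: 2-cycles `(r s)`, `(t w)`, `x = (s t)`. In each case `ac` and `bc` swap two points,
so have even order, `c ∈ D`, so `c ∈ T`, `b ∈ T`. -/
def S_SN2 : Prop := ∀ (n : ℕ), 6 ≤ n → ∀ D T : Set (Equiv.Perm (Fin n)),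
  (∀ d ∈ D, orderOf d = 2) → (∀ d ∈ D, ∀ i j, Equiv.swap i j * d * Equiv.swap i j ∈ D) →
  T ⊆ D → (∀ a ∈ T, ∀ b ∈ D, b ∉ T → Odd (orderOf (a * b))) →
  ∀ a ∈ T, ∀ i j, Equiv.swap i j * a * Equiv.swap i j ∈ T

/-- (SN) symmetric groups. -/
def S_SN : Prop := ∀ n : ℕ, Has (Equiv.Perm (Fin n)) ↔ n = 3 ∨ n = 4 ∨ n = 5

/-- (AL) alternating groups. A normal set of involutions of `A_n` is invariant under
transpositions (a transposition of two points swapped by `a` centralises `a`); `n ≤ 4`: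
(NO). -/
def S_AL : Prop := ∀ n : ℕ, Has (alternatingGroup (Fin n)) ↔ n = 5

end Pool.Agent.W5h18.IN
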