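import Pool.Agent.W5h18.IN.Defs

/-!
# MP_39b43f_al: normal subgroups
-/

namespace Pool.Agent.W5h18.IN

/-- (NM) normal subgroups: `D ⊆ M`: `(D, T)` is admissible in `M`. Otherwise `D ∩ M = ∅` (`D` is one
class). If all elements of `D` have the same image in `G ⧸ M`, it is central. Otherwise if `a ∈ T`,
`b ∈ D \ T` have the same image, `a` has no neighbour (a `c ∈ D` whose image has with the image of
`a` a product of even order: `ac`, `bc` have even order, so `c ∈ T` and `c ∉ T`), so the image of `D`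
has no neighbours at all, `T' = {image of a}`; if not, `T'` = image of `T`. -/
def S_NM : Prop := ∀ (G : Type) [Group G] [Finite G] (M : Subgroup G) [M.Normal], Has G →
  Has M ∨ Has (G ⧸ M) ∨ ∃ a : G, orderOf a = 2 ∧ a ∉ M ∧ a ∉ Subgroup.center G ∧
    (a : G ⧸ M) ∈ Subgroup.center (G ⧸ M)

/-- (N2) normal `2`-subgroups: `ab ∈ Q` and `ab` of odd order give `a = b`; `D ⊆ Q` is impossible. -/
def S_N2 : Prop := ∀ (G : Type) [Group G] [Finite G] (Q : Subgroup G) [Q.Normal],
  IsPGroup 2 Q → Has G → Has (G ⧸ Q)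

/-- (L1) groups of `2`-length one: (QU) and (NO) for `G ⧸ N` (its involutions lie in the image of
`M`, which is a `2`-group). -/
def S_L1 : Prop := ∀ (G : Type) [Group G] [Finite G] (N M : Subgroup G) [N.Normal] [M.Normal],
  N ≤ M → Odd (Nat.card N) → (∀ x ∈ M, ∃ k : ℕ, x ^ 2 ^ k ∈ N) → Odd M.index →
  (Has G ↔ ∃ a : G, orderOf a = 2 ∧ a ∉ Subgroup.center G ∧
    (a : G ⧸ N) ∈ Subgroup.center (G ⧸ N))

/-- (TR) normal subgroups such that elements of odd order modulo `N`, not in `N`, have odd order. -/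
def S_TR : Prop := ∀ (G : Type) [Group G] [Finite G] (N : Subgroup G) [N.Normal],
  (∀ g : G, Odd (orderOf (g : G ⧸ N)) → g ∉ N → Odd (orderOf g)) →
  (∀ x : G ⧸ N, orderOf x = 2 → ∃ a : G, orderOf a = 2 ∧ (a : G ⧸ N) = x) →
  Has (G ⧸ N) → Has G

end Pool.Agent.W5h18.IN
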