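import Pool.Agent.W5h18.IN.Defs

/-!
# MP_39b43f_al: solvable groups
-/

namespace Pool.Agent.W5h18.IN

/-- `H` is a proper subgroup of odd index, `a` an involution in `H` that lies in no other conjugate
of `H`, and products of two conjugates of `a`, one in `H`, the other not, have odd order. -/
def Emb {G : Type} [Group G] (a : G) (H : Subgroup G) : Prop :=
  orderOf a = 2 ∧ H ≠ ⊤ ∧ Odd H.index ∧ a ∈ H ∧ (∀ g : G, g * a * g⁻¹ ∈ H → g ∈ H) ∧
    ∀ x y : G, x⁻¹ * a * x ∈ H → y⁻¹ * a * y ∉ H → Odd (orderOf (x⁻¹ * a * x * (y⁻¹ * a * y)))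

/-- (SO2) `H = {g | cj g T₀ = T₀}` with `T₀` of (ST), `D ∩ H = T₀`, `a ∈ T₀`; conversely
`D` = class of `a`, `T = D ∩ H`, (CR). -/
def S_SO2 : Prop := ∀ (G : Type) [Group G] [Finite G],
  (Has G ↔ ∃ (a : G) (H : Subgroup G), Emb a H)

/-- The condition for solvable groups. -/
def Sol (G : Type) [Group G] : Prop := ∃ (a : G) (M K : Subgroup G), M.Normal ∧ K.Normal ∧ M ≤ K ∧
  Odd (M.relIndex K) ∧ orderOf a = 2 ∧ (∃ x : G, a * (x⁻¹ * a * x) ∉ M) ∧
  ∀ x : G, a * (x⁻¹ * a * x) ∈ K ∧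
    (a * (x⁻¹ * a * x) ∉ M → Odd (orderOf (a * (x⁻¹ * a * x))))

/-- (SO1) `D` = class of `a`, `T = D ∩ aM`, (CR). -/
def S_SO1 : Prop := ∀ (G : Type) [Group G] [Finite G], Sol G → Has G

/-- (SO3) Let `X ⊇ H` be a maximal subgroup (of odd index), `M` its core. `a` fixes exactly one point
of `G/X` (a fixed point is a block of `G/H` of odd size, on which `a` has a fixed point):
`g a g⁻¹ ∈ X → g ∈ X`. Let `F = K/M` be a minimal normal subgroup of `G/M` (`G` solvable): abelian,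
`K ∩ X = M`, `K X = G`, `|F| = |G : X|` odd. `a` has no fixed point on `F` (such an `f` would have
`f a f⁻¹ ∈ aM ≤ X`, `f ∈ X`), so it inverts `F`. For `x ∈ X` the element `[a, x]` centralises `F`;
`C_X(F)` is normal in `G = K X` modulo `M`, so in `M`: `[a, x] ∈ M`; so all `[a, g] ∈ K`, and the
conjugates of `a` in `X` are in `aM` (`aK ∩ X = aM`). If `b = y⁻¹ a y` is not in `aM`: `b ∉ X`, so
`b ∉ H` and `ab` has odd order by `Emb` (`x = 1`). -/
def S_SO3 : Prop := ∀ (G : Type) [Group G] [Finite G], IsSolvable G →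
  ∀ (a : G) (H : Subgroup G), Emb a H → Sol G

end Pool.Agent.W5h18.IN
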