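import Pool.Agent.W5h18.IN.Defs

/-! (SE) strongly embedded subgroups -/

namespace Pool.Agent.W5h18.IN

theorem se (_ : S_CR) : S_SE := by
  intro G _ _ H hH hev hse
  have conj2 : ∀ d g : G, orderOf d = 2 → orderOf (g⁻¹ * d * g) = 2 := by
    intro d g hd
    have e : g⁻¹ * d * g = MulAut.conj g⁻¹ d := by simp [MulAut.conj_apply]
    rw [e]
    exact (MulEquiv.orderOf_eq (MulAut.conj g⁻¹) d).trans hd
  haveI : Fact (Nat.Prime 2) := ⟨Nat.prime_two⟩
  obtain ⟨x, hx⟩ : ∃ x : H, orderOf x = 2 := exists_prime_orderOf_dvd_card' 2 hev.two_dvd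
  have hx' : orderOf (x : G) = 2 := (Subgroup.orderOf_coe x).trans hx
  refine ⟨{x | orderOf x = 2}, {x | orderOf x = 2 ∧ x ∈ H},
    ⟨fun d hd => hd, fun d hd g => conj2 d g hd⟩, fun x hx => hx.1, ⟨x, hx', x.2⟩, ?_, ?_, ?_⟩
  · intro heq
    obtain ⟨g, hg⟩ : ∃ g, g ∉ H := by
      by_contra hcon
      push Not at hcon
      exact hH ((Subgroup.eq_top_iff' H).2 hcon)
    have h1 : orderOf (g * x * g⁻¹) = 2 := by
      have := conj2 x g⁻¹ hx'
      rwa [inv_inv] at this
    have h2 : g * x * g⁻¹ ∈ {x : G | orderOf x = 2 ∧ x ∈ H} := by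
      rw [heq]
      exact h1
    exact hse g hg x x.2 h2.2 hx'
  · intro a ha d hd hcomm
    refine ⟨hd, ?_⟩
    by_contra hdH
    apply hse d hdH a ha.2 _ ha.1
    rw [hcomm, mul_inv_cancel_right]
    exact ha.2
  · intro a ha b hb hab hne d hd hcomm
    refine ⟨hd, ?_⟩
    by_contra hdH
    have ha2 : a * a = 1 := by rw [← pow_two, ← ha.1]; exact pow_orderOf_eq_one a
    have hb2 : b * b = 1 := by rw [← pow_two, ← hb.1]; exact pow_orderOf_eq_one b
    have hab2 : (a * b) ^ 2 = 1 := by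
      rw [pow_two]
      calc a * b * (a * b) = a * b * (b * a) := by rw [hab]
        _ = a * (b * b) * a := by group
        _ = 1 := by rw [hb2, mul_one, ha2]
    apply hse d hdH (a * b) (H.mul_mem ha.2 hb.2) _ (orderOf_eq_prime hab2 hne)
    rw [hcomm, mul_inv_cancel_right]
    exact H.mul_mem ha.2 hb.2

end Pool.Agent.W5h18.IN
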